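import Pool.Agent.Helper70K1.VN.FSym

/-!
# Approximation by finitely supported elements, and elementary equivalence
-/

set_option autoImplicit false

open scoped ENNReal

namespace Pool.Agent.Helper70K1.VN

open Pool.Agent.Helper70K1.CL

theorem norm_Bf_small {G : Type} [Group G] (ζ η : G →₀ ℂ) (f : G → ℂ) {ε : ℝ}
    (h : ∀ g ∈ ζ.support, ∀ k ∈ η.support, ‖f (g * k⁻¹)‖ ≤ ε) :
    ‖Bf ζ η f‖ ≤ ε * ((∑ g ∈ ζ.support, ‖ζ g‖) * ∑ k ∈ η.support, ‖η k‖) := by
  unfold Bf Finsupp.sum
  rw [Finset.sum_mul_sum, Finset.mul_sum]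
  refine (norm_sum_le _ _).trans (Finset.sum_le_sum fun g hg => ?_)
  rw [Finset.mul_sum]
  refine (norm_sum_le _ _).trans (Finset.sum_le_sum fun k hk => ?_)
  rw [norm_mul, norm_mul, RCLike.norm_conj]
  have := h g hg k hk
  calc ‖ζ g‖ * (‖f (g * k⁻¹)‖ * ‖η k‖) ≤ ‖ζ g‖ * (ε * ‖η k‖) := by gcongr
    _ = ε * (‖ζ g‖ * ‖η k‖) := by ring

theorem Bf_sub {G : Type} [Group G] (ζ η : G →₀ ℂ) (f f' : G → ℂ) :
    Bf ζ η f - Bf ζ η f' = Bf ζ η (fun g => f g - f' g) := by
  unfold Bf Finsupp.sum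
  rw [← Finset.sum_sub_distrib]
  refine Finset.sum_congr rfl fun g _ => ?_
  rw [← Finset.sum_sub_distrib]
  refine Finset.sum_congr rfl fun h _ => ?_
  ring

section

variable {X Y : Type}

theorem finite_large {G : Type} [Group G] (T : (LG G).Elt) {ε : ℝ} (hε : 0 < ε) :
    {g : G | ε < ‖coef T g‖}.Finite := by
  have h := (summable_coef T).tendsto_cofinite_zero
  have h2 : ∀ᶠ g in Filter.cofinite, ‖coef T g‖ ^ 2 < ε ^ 2 :=
    h.eventually (gt_mem_nhds (by positivity))
  refine Set.Finite.subset h2 fun g hg => ?_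
  have hg' : ε < ‖coef T g‖ := hg
  show ¬ (‖coef T g‖ ^ 2 < ε ^ 2)
  rw [not_lt]
  exact pow_le_pow_left₀ hε.le hg'.le 2

/-- Truncation to the permutations with support in a finite set does not increase the norm. -/
theorem norm_trunc_GF_le [Infinite X] (T : (LG (FSym X)).Elt) (F : Finset X) :
    ‖fs (trunc (coef T) (GF F))‖ ≤ ‖T‖ := by
  classical
  refine norm_le_of_Bf _ (norm_nonneg _) fun ζ η => ?_
  set K : ℝ := (∑ g ∈ ζ.support, ‖ζ g‖) * ∑ k ∈ η.support, ‖η k‖ with hK
  have hK0 : 0 ≤ K := by positivity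
  have key : ∀ ε : ℝ, 0 < ε →
      ‖Bf ζ η (coef (fs (trunc (coef T) (GF F))))‖ ≤ ‖T‖ * ‖vec ζ‖ * ‖vec η‖ + ε * K := by
    intro ε hε
    have hfin := finite_large T hε
    let Q : Finset X := usup hfin.toFinset
    let S : Finset X := usup (ζ.support ∪ η.support)
    have hZ : ((Q : Set X)ᶜ).Infinite := Q.finite_toSet.infinite_compl
    obtain ⟨θ, hθ1, hθ2⟩ := exists_perm F hZ S
    have h1 : Bf ζ η (fun g => coef T (cj θ g)) =
        Bf (ζ.mapDomain (cj θ).toMonoidHom) (η.mapDomain (cj θ).toMonoidHom) (coef T) := by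
      rw [Bf_map (cj θ).injective]
      rfl
    have h2 : ‖Bf ζ η (fun g => coef T (cj θ g))‖ ≤ ‖T‖ * ‖vec ζ‖ * ‖vec η‖ := by
      rw [h1]
      refine (norm_Bf_le _ _ _).trans ?_
      rw [norm_vec_map (j := (cj θ).toMonoidHom) (cj θ).injective,
        norm_vec_map (j := (cj θ).toMonoidHom) (cj θ).injective]
    have h3 : ‖Bf ζ η (coef (fs (trunc (coef T) (GF F)))) -
        Bf ζ η (fun g => coef T (cj θ g))‖ ≤ ε * K := by
      rw [Bf_sub]
      refine norm_Bf_small ζ η _ fun g hg k hk => ?_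
      rw [coef_fs, trunc_apply]
      by_cases hgk : g * k⁻¹ ∈ GF F
      · rw [if_pos hgk, cj_eq_self, sub_self, norm_zero]
        · exact hε.le
        · exact fun x hx => hθ1 x (mem_GF.1 hgk x hx)
      · rw [if_neg hgk, zero_sub, norm_neg]
        rw [mem_GF] at hgk
        push Not at hgk
        obtain ⟨x, hx, hxF⟩ := hgk
        have hxS : x ∈ S := by
          rw [mem_usup]
          rcases sup_mul_inv hx with h | h
          · exact ⟨g, Finset.mem_union_left _ hg, h⟩
          · exact ⟨k, Finset.mem_union_right _ hk, h⟩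
        have h4 := hθ2 x hxS hxF
        have h5 : θ x ∈ sup (cj θ (g * k⁻¹)) := mem_sup_cj.2 hx
        by_contra hcon
        rw [not_le] at hcon
        apply h4
        show θ x ∈ (Q : Set X)
        rw [Finset.mem_coe, mem_usup]
        exact ⟨cj θ (g * k⁻¹), by rw [Set.Finite.mem_toFinset]; exact hcon, h5⟩
    calc ‖Bf ζ η (coef (fs (trunc (coef T) (GF F))))‖
        = ‖Bf ζ η (fun g => coef T (cj θ g)) + (Bf ζ η (coef (fs (trunc (coef T) (GF F)))) -
            Bf ζ η (fun g => coef T (cj θ g)))‖ := by congr 1; ring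
      _ ≤ _ := (norm_add_le _ _).trans (add_le_add h2 h3)
  refine le_of_forall_pos_le_add fun ε' hε' => ?_
  refine (key (ε' / (K + 1)) (by positivity)).trans ?_
  have : ε' / (K + 1) * K ≤ ε' := by
    rw [div_mul_eq_mul_div, div_le_iff₀ (by positivity)]
    nlinarith
  linarith

/-- Every element of `L(FSym X)` can be approximated by finitely supported elements of at most the
same norm. -/
theorem exists_approx [Infinite X] (T : (LG (FSym X)).Elt) {δ : ℝ} (hδ : 0 < δ) :
    ∃ c : FSym X →₀ ℂ, ‖fs c‖ ≤ ‖T‖ ∧ norm2 (LG (FSym X)) (T - fs c) ≤ δ := by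
  have h := tendsto_trunc (op T (dl 1))
  classical
  obtain ⟨s, hs⟩ := Filter.eventually_atTop.1 (Metric.tendsto_nhds.1 h δ hδ)
  let F : Finset X := usup s
  have hsub : s ≤ GF F := by
    intro g hg
    rw [mem_GF]
    intro x hx
    exact mem_usup.2 ⟨g, hg, hx⟩
  refine ⟨trunc (coef T) (GF F), norm_trunc_GF_le T F, ?_⟩
  have h1 := hs (GF F) hsub
  rw [dist_eq_norm, norm_sub_rev] at h1
  refine le_trans (le_of_eq ?_) h1.le
  rw [norm2_LG]
  congr 1
  apply ext_coord
  intro g
  have h2 : coef (T - fs (trunc (coef T) (GF F))) g = coef T g - trunc (coef T) (GF F) g := by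
    rw [coef_sub, coef_fs]
  exact h2

/-- The norm of a finitely supported element does not change under injections of the set. -/
theorem norm_fs_em [Infinite X] (j : X ↪ Y) (c : FSym X →₀ ℂ) :
    ‖fs (c.mapDomain (em j))‖ = ‖fs c‖ := by
  classical
  have hinj := em_injective j
  apply le_antisymm
  · refine norm_le_of_Bf _ (norm_nonneg _) fun ζ η => ?_
    let F : Finset Y := usup (c.mapDomain (em j)).support
    let S : Finset Y := usup (ζ.support ∪ η.support)
    have hZ : (Set.range j).Infinite := Set.infinite_range_of_injective j.injective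
    obtain ⟨θ, hθ1, hθ2⟩ := exists_perm F hZ S
    have hF : ∀ x ∈ F, x ∈ Set.range j := by
      intro x hx
      obtain ⟨σ, hσ, hx⟩ := mem_usup.1 hx
      have : σ ∈ (c.support.image (em j)) := Finsupp.mapDomain_support hσ
      obtain ⟨τ, _, rfl⟩ := Finset.mem_image.1 this
      exact sup_em hx
    have hS : ∀ x ∈ S, θ x ∈ Set.range j := by
      intro x hx
      by_cases hxF : x ∈ F
      · rw [hθ1 x hxF]
        exact hF x hxF
      · exact hθ2 x hx hxF
    have hcoef : ∀ g, coef (fs (c.mapDomain (em j))) (cj θ g) =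
        coef (fs (c.mapDomain (em j))) g := by
      intro g
      rw [coef_fs, coef_fs]
      have h1 : (c.mapDomain (em j)).mapDomain (cj θ) = c.mapDomain (em j) := by
        conv_rhs => rw [← Finsupp.mapDomain_id (v := c.mapDomain (em j))]
        refine Finsupp.mapDomain_congr fun σ hσ => ?_
        exact cj_eq_self fun x hx => hθ1 x (mem_usup.2 ⟨σ, hσ, hx⟩)
      conv_lhs => rw [← h1]
      exact Finsupp.mapDomain_apply (cj θ).injective _ _
    have hex : ∀ ξ : FSym Y →₀ ℂ, (ξ = ζ ∨ ξ = η) →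
        ∃ ξ' : FSym X →₀ ℂ, ξ'.mapDomain (em j) = ξ.mapDomain (cj θ).toMonoidHom := by
      intro ξ hξ
      refine ⟨Finsupp.comapDomain (em j) (ξ.mapDomain (cj θ).toMonoidHom) hinj.injOn,
        Finsupp.mapDomain_comapDomain _ hinj _ ?_⟩
      intro σ hσ
      have : σ ∈ (ξ.support.image (cj θ).toMonoidHom) := Finsupp.mapDomain_support hσ
      obtain ⟨τ, hτ, rfl⟩ := Finset.mem_image.1 this
      apply exists_em
      intro y hy
      obtain ⟨x, rfl⟩ := θ.surjective y
      have hx : x ∈ sup τ := mem_sup_cj.1 hy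
      apply hS
      rw [mem_usup]
      refine ⟨τ, ?_, hx⟩
      rcases hξ with rfl | rfl
      · exact Finset.mem_union_left _ hτ
      · exact Finset.mem_union_right _ hτ
    obtain ⟨ζ', hζ'⟩ := hex ζ (Or.inl rfl)
    obtain ⟨η', hη'⟩ := hex η (Or.inr rfl)
    have h1 : Bf ζ η (coef (fs (c.mapDomain (em j)))) = Bf ζ' η' (coef (fs c)) := by
      calc Bf ζ η (coef (fs (c.mapDomain (em j))))
          = Bf ζ η (fun g => coef (fs (c.mapDomain (em j))) ((cj θ).toMonoidHom g)) := by
            congr 1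
            funext g
            exact (hcoef g).symm
        _ = Bf (ζ.mapDomain (cj θ).toMonoidHom) (η.mapDomain (cj θ).toMonoidHom)
              (coef (fs (c.mapDomain (em j)))) := (Bf_map (cj θ).injective _ _ _).symm
        _ = Bf (ζ'.mapDomain (em j)) (η'.mapDomain (em j))
              (coef (fs (c.mapDomain (em j)))) := by rw [hζ', hη']
        _ = Bf ζ' η' (fun g => coef (fs (c.mapDomain (em j))) (em j g)) := Bf_map hinj _ _ _
        _ = Bf ζ' η' (coef (fs c)) := by
            congr 1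
            funext g
            rw [coef_fs, coef_fs, Finsupp.mapDomain_apply hinj]
    have h2 : ‖vec ζ'‖ = ‖vec ζ‖ := by
      rw [← norm_vec_map hinj ζ', hζ', norm_vec_map (j := (cj θ).toMonoidHom) (cj θ).injective]
    have h3 : ‖vec η'‖ = ‖vec η‖ := by
      rw [← norm_vec_map hinj η', hη', norm_vec_map (j := (cj θ).toMonoidHom) (cj θ).injective]
    rw [h1, ← h2, ← h3]
    exact norm_Bf_le _ _ _
  · refine norm_le_of_Bf _ (norm_nonneg _) fun ζ η => ?_
    have h1 : Bf ζ η (coef (fs c)) = Bf (ζ.mapDomain (em j)) (η.mapDomain (em j))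
        (coef (fs (c.mapDomain (em j)))) := by
      rw [Bf_map hinj]
      congr 1
      funext g
      rw [coef_fs, coef_fs, Finsupp.mapDomain_apply hinj]
    rw [h1]
    refine (norm_Bf_le _ _ _).trans ?_
    rw [norm_vec_map hinj, norm_vec_map hinj]

end

section

variable {G : Type} [Group G]

theorem fs_zero : fs (0 : G →₀ ℂ) = 0 := by
  apply ext_coef
  intro g
  rw [coef_fs]
  rfl

theorem fs_one : fs (Finsupp.single (1 : G) 1) = 1 := by
  rw [← lm_eq_fs]
  apply Subtype.ext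
  exact lam_one

theorem fs_add (c d : G →₀ ℂ) : fs (c + d) = fs c + fs d := by
  apply ext_coef
  intro g
  have h : coef (fs c + fs d) g = coef (fs c) g + coef (fs d) g := rfl
  rw [h, coef_fs, coef_fs, coef_fs]
  rfl

theorem fs_smul (z : ℂ) (c : G →₀ ℂ) : fs (z • c) = z • fs c := by
  apply ext_coef
  intro g
  have h : coef (z • fs c) g = z * coef (fs c) g := rfl
  rw [h, coef_fs, coef_fs]
  rfl

theorem fs_sub (c d : G →₀ ℂ) : fs (c - d) = fs c - fs d := by
  apply ext_coef
  intro g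
  rw [coef_sub, coef_fs, coef_fs, coef_fs]
  rfl

/-- The convolution product. -/
noncomputable def cmul (c d : G →₀ ℂ) : G →₀ ℂ :=
  c.sum fun g z => d.sum fun h w => Finsupp.single (g * h) (z * w)

theorem lm_mul (g h : G) : lm g * lm h = lm (g * h) := Subtype.ext (lam_mul g h)

theorem fs_sum {ι : Type} (s : Finset ι) (F : ι → (G →₀ ℂ)) :
    fs (∑ i ∈ s, F i) = ∑ i ∈ s, fs (F i) := by
  classical
  induction s using Finset.induction_on with
  | empty => rw [Finset.sum_empty, Finset.sum_empty, fs_zero]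
  | insert a s ha ih => rw [Finset.sum_insert ha, Finset.sum_insert ha, fs_add, ih]

theorem fs_single (g : G) (z : ℂ) : fs (Finsupp.single g z) = z • lm g := by
  rw [lm_eq_fs, ← fs_smul, Finsupp.smul_single, smul_eq_mul, mul_one]

theorem fs_mul (c d : G →₀ ℂ) : fs c * fs d = fs (cmul c d) := by
  unfold cmul Finsupp.sum
  rw [fs_sum]
  conv_lhs => unfold fs Finsupp.sum
  rw [Finset.sum_mul]
  refine Finset.sum_congr rfl fun g _ => ?_
  rw [fs_sum, Finset.mul_sum]
  refine Finset.sum_congr rfl fun h _ => ?_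
  rw [fs_single, smul_mul_smul_comm, lm_mul]

/-- The adjoint. -/
noncomputable def cadj (c : G →₀ ℂ) : G →₀ ℂ :=
  c.sum fun g z => Finsupp.single g⁻¹ ((starRingEnd ℂ) z)

theorem lm_adj (g : G) : star (lm g) = lm g⁻¹ := Subtype.ext (star_lam g)

theorem fs_adj (c : G →₀ ℂ) : star (fs c) = fs (cadj c) := by
  unfold cadj Finsupp.sum
  rw [fs_sum]
  conv_lhs => unfold fs Finsupp.sum
  rw [star_sum]
  refine Finset.sum_congr rfl fun g _ => ?_
  rw [fs_single, star_smul, lm_adj]
  rfl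

theorem cmul_map {K : Type} [Group K] {j : K →* G} (hj : Function.Injective j) (c d : K →₀ ℂ) :
    cmul (c.mapDomain j) (d.mapDomain j) = (cmul c d).mapDomain j := by
  unfold cmul
  rw [Finsupp.sum_mapDomain_index_inj hj]
  unfold Finsupp.sum
  rw [Finsupp.mapDomain_finsetSum]
  refine Finset.sum_congr rfl fun g _ => ?_
  rw [Finsupp.mapDomain_finsetSum]
  have h := Finsupp.sum_mapDomain_index_inj (s := d) (f := j)
    (h := fun h w => Finsupp.single (j g * h) (c g * w)) hj
  unfold Finsupp.sum at h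
  refine Eq.trans h ?_
  refine Finset.sum_congr rfl fun k _ => ?_
  rw [Finsupp.mapDomain_single, map_mul]

theorem cadj_map {K : Type} [Group K] {j : K →* G} (hj : Function.Injective j) (c : K →₀ ℂ) :
    cadj (c.mapDomain j) = (cadj c).mapDomain j := by
  unfold cadj
  rw [Finsupp.sum_mapDomain_index_inj hj]
  unfold Finsupp.sum
  rw [Finsupp.mapDomain_finsetSum]
  refine Finset.sum_congr rfl fun g _ => ?_
  rw [Finsupp.mapDomain_single, map_inv]

theorem tr_fs (c : G →₀ ℂ) : TracialVN.tr (fs c) = c 1 := coef_fs c 1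

theorem norm2_fs (c : G →₀ ℂ) : norm2 (LG G) (fs c) = ‖vec c‖ := by
  rw [norm2_LG]
  congr 1
  exact ext_coord (coef_fs c)

end

/-- If the values of `f` and `g` approximate each other, then suprema and infima agree. -/
theorem iSup_eq_of_approx {A B : Type} [Nonempty A] [Nonempty B] {f : A → ℝ} {g : B → ℝ} {K : ℝ}
    (hf : ∀ a, |f a| ≤ K) (hg : ∀ b, |g b| ≤ K)
    (h1 : ∀ a, ∀ ε : ℝ, 0 < ε → ∃ b, |f a - g b| ≤ ε)
    (h2 : ∀ b, ∀ ε : ℝ, 0 < ε → ∃ a, |f a - g b| ≤ ε) :
    (⨆ a, f a) = ⨆ b, g b := by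
  have hbf : BddAbove (Set.range f) := ⟨K, by rintro _ ⟨i, rfl⟩; exact (abs_le.1 (hf i)).2⟩
  have hbg : BddAbove (Set.range g) := ⟨K, by rintro _ ⟨i, rfl⟩; exact (abs_le.1 (hg i)).2⟩
  apply le_antisymm
  · refine ciSup_le fun a => le_of_forall_pos_le_add fun ε hε => ?_
    obtain ⟨b, hb⟩ := h1 a ε hε
    have h3 := le_ciSup hbg b
    have h4 := (abs_le.1 hb).2
    linarith
  · refine ciSup_le fun b => le_of_forall_pos_le_add fun ε hε => ?_
    obtain ⟨a, ha⟩ := h2 b ε hε
    have h3 := le_ciSup hbf a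
    have h4 := (abs_le.1 ha).1
    linarith

theorem iInf_eq_of_approx {A B : Type} [Nonempty A] [Nonempty B] {f : A → ℝ} {g : B → ℝ} {K : ℝ}
    (hf : ∀ a, |f a| ≤ K) (hg : ∀ b, |g b| ≤ K)
    (h1 : ∀ a, ∀ ε : ℝ, 0 < ε → ∃ b, |f a - g b| ≤ ε)
    (h2 : ∀ b, ∀ ε : ℝ, 0 < ε → ∃ a, |f a - g b| ≤ ε) :
    (⨅ a, f a) = ⨅ b, g b := by
  have hbf : BddBelow (Set.range f) := ⟨-K, by rintro _ ⟨i, rfl⟩; exact (abs_le.1 (hf i)).1⟩
  have hbg : BddBelow (Set.range g) := ⟨-K, by rintro _ ⟨i, rfl⟩; exact (abs_le.1 (hg i)).1⟩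
  apply le_antisymm
  · have : ∀ b, (⨅ a, f a) ≤ g b := by
      intro b
      refine le_of_forall_pos_le_add fun ε hε => ?_
      obtain ⟨a, ha⟩ := h2 b ε hε
      have h3 := ciInf_le hbf a
      have h4 := (abs_le.1 ha).2
      linarith
    exact le_ciInf this
  · have : ∀ a, (⨅ b, g b) ≤ f a := by
      intro a
      refine le_of_forall_pos_le_add fun ε hε => ?_
      obtain ⟨b, hb⟩ := h1 a ε hε
      have h3 := ciInf_le hbg b
      have h4 := (abs_le.1 hb).1
      linarith
    exact le_ciInf this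

theorem snoc_fs {G : Type} [Group G] {n : ℕ} (x : Fin n → (G →₀ ℂ)) (c : G →₀ ℂ) :
    (fun i => fs (snoc x c i)) =
      snoc (fun i => fs (x i)) (fs c) :=
  snoc_comp fs x c

section

variable {X Y : Type} [Infinite X]

omit [Infinite X] in
theorem common_bound (j : X ↪ Y) {n : ℕ} (r : ℕ+) (x : Fin n → (FSym X →₀ ℂ)) :
    ∃ C : ℝ, 0 ≤ C ∧ ((r : ℕ) : ℝ) ≤ C ∧
      (∀ i, ‖fs (x i)‖ ≤ C) ∧ ∀ i, ‖fs ((x i).mapDomain (em j))‖ ≤ C := by
  refine ⟨(r : ℕ) + ∑ i, ‖fs (x i)‖ + ∑ i, ‖fs ((x i).mapDomain (em j))‖, by positivity,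
    ?_, fun i => ?_, fun i => ?_⟩
  · have h1 : 0 ≤ ∑ i, ‖fs (x i)‖ := Finset.sum_nonneg fun _ _ => norm_nonneg _
    have h2 : 0 ≤ ∑ i, ‖fs ((x i).mapDomain (em j))‖ :=
      Finset.sum_nonneg fun _ _ => norm_nonneg _
    linarith
  · have h1 : ‖fs (x i)‖ ≤ ∑ i, ‖fs (x i)‖ :=
      Finset.single_le_sum (f := fun i => ‖fs (x i)‖) (fun _ _ => norm_nonneg _)
        (Finset.mem_univ i)
    have h2 : 0 ≤ ∑ i, ‖fs ((x i).mapDomain (em j))‖ :=
      Finset.sum_nonneg fun _ _ => norm_nonneg _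
    have h3 : (0 : ℝ) ≤ (r : ℕ) := Nat.cast_nonneg _
    linarith
  · have h1 : ‖fs ((x i).mapDomain (em j))‖ ≤ ∑ i, ‖fs ((x i).mapDomain (em j))‖ :=
      Finset.single_le_sum (f := fun i => ‖fs ((x i).mapDomain (em j))‖)
        (fun _ _ => norm_nonneg _) (Finset.mem_univ i)
    have h2 : 0 ≤ ∑ i, ‖fs (x i)‖ := Finset.sum_nonneg fun _ _ => norm_nonneg _
    have h3 : (0 : ℝ) ≤ (r : ℕ) := Nat.cast_nonneg _
    linarith

/-- The two approximation statements used in the proof of the elementary equivalence. -/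
theorem approx_step (j : X ↪ Y) {n : ℕ} (φ : Fml Empty (n + 1)) (r : ℕ+)
    (ih : ∀ x : Fin (n + 1) → (FSym X →₀ ℂ),
      φ.eval (LG (FSym X)) (fun v => v.elim) (fun i => fs (x i)) =
        φ.eval (LG (FSym Y)) (fun v => v.elim) (fun i => fs ((x i).mapDomain (em j))))
    (x : Fin n → (FSym X →₀ ℂ)) :
    (∀ a : (LG (FSym X)).Ball r, ∀ ε : ℝ, 0 < ε → ∃ b : (LG (FSym Y)).Ball r,
      |φ.eval (LG (FSym X)) (fun v => v.elim) (snoc (fun i => fs (x i)) a.1) -
        φ.eval (LG (FSym Y)) (fun v => v.elim)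
          (snoc (fun i => fs ((x i).mapDomain (em j))) b.1)| ≤ ε) ∧
    (∀ b : (LG (FSym Y)).Ball r, ∀ ε : ℝ, 0 < ε → ∃ a : (LG (FSym X)).Ball r,
      |φ.eval (LG (FSym X)) (fun v => v.elim) (snoc (fun i => fs (x i)) a.1) -
        φ.eval (LG (FSym Y)) (fun v => v.elim)
          (snoc (fun i => fs ((x i).mapDomain (em j))) b.1)| ≤ ε) := by
  classical
  have : Infinite Y := Infinite.of_injective j j.injective
  obtain ⟨C, hC0, hrC, hxC, hyC⟩ := common_bound j r x
  constructor
  · intro a ε hε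
    obtain ⟨δ, hδ0, hδ⟩ := φ.unif C hC0 ε hε
    obtain ⟨c, hc1, hc2⟩ := exists_approx a.1 hδ0
    have hc3 : ‖fs (c.mapDomain (em j))‖ ≤ (r : ℕ) := by
      rw [norm_fs_em]; exact hc1.trans a.2
    refine ⟨⟨fs (c.mapDomain (em j)), hc3⟩, ?_⟩
    have h1 := ih (snoc x c)
    rw [snoc_fs] at h1
    have h2 : (fun i => fs ((snoc x c i).mapDomain (em j))) =
        snoc (fun i => fs ((x i).mapDomain (em j)))
          (fs (c.mapDomain (em j))) :=
      snoc_comp (fun c : FSym X →₀ ℂ => fs (c.mapDomain (em j))) x c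
    rw [h2] at h1
    show |_ - φ.eval (LG (FSym Y)) (fun v => v.elim)
      (snoc (fun i => fs ((x i).mapDomain (em j))) (fs (c.mapDomain (em j))))| ≤ ε
    rw [← h1]
    refine hδ _ _ _ _ _ (fun v => v.elim)
      (norm_snoc_le hxC (a.2.trans hrC)) (fun v => v.elim)
      (norm_snoc_le hxC ((hc1.trans a.2).trans hrC)) (fun v => v.elim) ?_
    intro i
    unfold snoc
    refine Fin.lastCases ?_ (fun i => ?_) i
    · simpa using hc2
    · simpa [norm2_zero] using hδ0.le
  · intro b ε hε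
    obtain ⟨δ, hδ0, hδ⟩ := φ.unif C hC0 ε hε
    obtain ⟨c', hc1, hc2⟩ := exists_approx b.1 hδ0
    -- move the support of `c'` into the range of `j`
    let F : Finset Y := usup (Finset.univ.biUnion fun i => ((x i).mapDomain (em j)).support)
    let S : Finset Y := usup c'.support
    have hZ : (Set.range j).Infinite := Set.infinite_range_of_injective j.injective
    obtain ⟨θ, hθ1, hθ2⟩ := exists_perm F hZ S
    have hF : ∀ y ∈ F, y ∈ Set.range j := by
      intro y hy
      obtain ⟨σ, hσ, hy⟩ := mem_usup.1 hy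
      obtain ⟨i, _, hσ⟩ := Finset.mem_biUnion.1 hσ
      have : σ ∈ ((x i).support.image (em j)) := Finsupp.mapDomain_support hσ
      obtain ⟨τ, _, rfl⟩ := Finset.mem_image.1 this
      exact sup_em hy
    have hS : ∀ y ∈ S, θ y ∈ Set.range j := by
      intro y hy
      by_cases hyF : y ∈ F
      · rw [hθ1 y hyF]
        exact hF y hyF
      · exact hθ2 y hy hyF
    have hfix : ∀ i, ((x i).mapDomain (em j)).mapDomain (cj θ) = (x i).mapDomain (em j) := by
      intro i
      conv_rhs => rw [← Finsupp.mapDomain_id (v := (x i).mapDomain (em j))]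
      refine Finsupp.mapDomain_congr fun σ hσ => ?_
      exact cj_eq_self fun y hy => hθ1 y
        (mem_usup.2 ⟨σ, Finset.mem_biUnion.2 ⟨i, Finset.mem_univ _, hσ⟩, hy⟩)
    obtain ⟨c, hc⟩ : ∃ c : FSym X →₀ ℂ, c.mapDomain (em j) = c'.mapDomain (cj θ) := by
      refine ⟨Finsupp.comapDomain (em j) (c'.mapDomain (cj θ)) (em_injective j).injOn,
        Finsupp.mapDomain_comapDomain _ (em_injective j) _ ?_⟩
      intro σ hσ
      have : σ ∈ (c'.support.image (cj θ)) := Finsupp.mapDomain_support hσ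
      obtain ⟨τ, hτ, rfl⟩ := Finset.mem_image.1 this
      apply exists_em
      intro y hy
      obtain ⟨z, rfl⟩ := θ.surjective y
      exact hS z (mem_usup.2 ⟨τ, hτ, mem_sup_cj.1 hy⟩)
    have hnc : ‖fs c‖ ≤ (r : ℕ) := by
      rw [← norm_fs_em j, hc]
      have h1 := (isoLG (cj θ)).norm (fs c')
      rw [isoLG_fs] at h1
      rw [h1]
      exact hc1.trans b.2
    refine ⟨⟨fs c, hnc⟩, ?_⟩
    have h1 := ih (snoc x c)
    rw [snoc_fs] at h1
    have h2 : (fun i => fs ((snoc x c i).mapDomain (em j))) =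
        snoc (fun i => fs ((x i).mapDomain (em j)))
          (fs (c.mapDomain (em j))) :=
      snoc_comp (fun c : FSym X →₀ ℂ => fs (c.mapDomain (em j))) x c
    rw [h2, hc] at h1
    have h3 := (isoLG (cj θ)).eval φ (fun v => v.elim)
      (snoc (fun i => fs ((x i).mapDomain (em j)))
        (fs c'))
    rw [snoc_comp] at h3
    simp only [isoLG_fs, hfix] at h3
    have h4 : (fun v : Empty => (isoLG (cj θ)).Φ (v.elim : (LG (FSym Y)).Elt)) =
        (fun v : Empty => (v.elim : (LG (FSym Y)).Elt)) := by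
      funext v
      exact v.elim
    rw [h4] at h3
    show |φ.eval (LG (FSym X)) (fun v => v.elim) (snoc (fun i => fs (x i)) (fs c)) - _| ≤ ε
    rw [h1, h3, abs_sub_comm]
    refine hδ _ _ _ _ _ (fun v => v.elim)
      (norm_snoc_le hyC (b.2.trans hrC)) (fun v => v.elim)
      (norm_snoc_le hyC ((hc1.trans b.2).trans hrC)) (fun v => v.elim) ?_
    intro i
    unfold snoc
    refine Fin.lastCases ?_ (fun i => ?_) i
    · simpa using hc2
    · simpa [norm2_zero] using hδ0.le

/-- Injections of infinite sets preserve the values of formulas at finitely supported elements. -/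
theorem eval_em (j : X ↪ Y) {n : ℕ} (φ : Fml Empty n) : ∀ x : Fin n → (FSym X →₀ ℂ),
    φ.eval (LG (FSym X)) (fun v => v.elim) (fun i => fs (x i)) =
      φ.eval (LG (FSym Y)) (fun v => v.elim) (fun i => fs ((x i).mapDomain (em j))) := by
  have hat : ∀ {n : ℕ} (t : Term (Empty ⊕ Fin n)) (x : Fin n → (FSym X →₀ ℂ)),
      ∃ c : FSym X →₀ ℂ, t.val (N := LG (FSym X)) (Sum.elim (fun v => v.elim) fun i => fs (x i)) =
        fs c ∧ t.val (N := LG (FSym Y)) (Sum.elim (fun v => v.elim)
          fun i => fs ((x i).mapDomain (em j))) = fs (c.mapDomain (em j)) := by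
    intro n t x
    induction t with
    | var v =>
      cases v with
      | inl v => exact v.elim
      | inr i => exact ⟨x i, rfl, rfl⟩
    | zero => exact ⟨0, (fs_zero).symm, by rw [Finsupp.mapDomain_zero]; exact (fs_zero).symm⟩
    | one =>
      refine ⟨Finsupp.single 1 1, (fs_one).symm, ?_⟩
      rw [Finsupp.mapDomain_single, map_one]
      exact (fs_one).symm
    | add s t hs ht =>
      obtain ⟨c, h1, h2⟩ := hs
      obtain ⟨d, h3, h4⟩ := ht
      refine ⟨c + d, ?_, ?_⟩
      · simp only [Term.val, h1, h3, fs_add, add_eq]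
      · simp only [Term.val, h2, h4, Finsupp.mapDomain_add, fs_add, add_eq]
    | mul s t hs ht =>
      obtain ⟨c, h1, h2⟩ := hs
      obtain ⟨d, h3, h4⟩ := ht
      refine ⟨cmul c d, ?_, ?_⟩
      · simp only [Term.val, h1, h3, fs_mul, mul_eq]
      · simp only [Term.val, h2, h4, fs_mul, mul_eq, cmul_map (em_injective j)]
    | adj t ht =>
      obtain ⟨c, h1, h2⟩ := ht
      refine ⟨cadj c, ?_, ?_⟩
      · simp only [Term.val, h1, fs_adj, adj_eq]
      · simp only [Term.val, h2, fs_adj, adj_eq, cadj_map (em_injective j)]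
    | smul a b t ht =>
      obtain ⟨c, h1, h2⟩ := ht
      refine ⟨((a : ℂ) + (b : ℂ) * Complex.I) • c, ?_, ?_⟩
      · simp only [Term.val, h1, fs_smul, smul_eq]
      · simp only [Term.val, h2, Finsupp.mapDomain_smul, fs_smul, smul_eq]
  have hinj := em_injective j
  induction φ with
  | reTr t =>
    intro x
    simp only [Fml.eval]
    obtain ⟨c, h1, h2⟩ := hat t x
    rw [h1, h2, tr_fs, tr_fs, ← map_one (em j), Finsupp.mapDomain_apply hinj]
  | imTr t =>
    intro x
    simp only [Fml.eval]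
    obtain ⟨c, h1, h2⟩ := hat t x
    rw [h1, h2, tr_fs, tr_fs, ← map_one (em j), Finsupp.mapDomain_apply hinj]
  | dist s t =>
    intro x
    simp only [Fml.eval]
    obtain ⟨c, h1, h2⟩ := hat s x
    obtain ⟨d, h3, h4⟩ := hat t x
    rw [h1, h2, h3, h4, dist2_eq, dist2_eq, ← fs_sub, ← fs_sub, ← Finsupp.mapDomain_sub, norm2_fs, norm2_fs,
      norm_vec_map hinj]
  | conn k u φ ih =>
    intro x
    simp only [Fml.eval]
    congr 1
    funext i
    exact ih i x
  | sup r φ ih =>
    intro x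
    simp only [Fml.eval]
    obtain ⟨C, hC0, hrC, hxC, hyC⟩ := common_bound j r x
    obtain ⟨K, hK0, hK⟩ := φ.bdd C hC0
    obtain ⟨h1, h2⟩ := approx_step j φ r ih x
    have := ball_nonempty (LG (FSym X)) r
    have := ball_nonempty (LG (FSym Y)) r
    refine iSup_eq_of_approx (K := K) (fun a => ?_) (fun b => ?_) h1 h2
    · exact hK _ _ _ (fun v => v.elim) (norm_snoc_le hxC (a.2.trans hrC))
    · exact hK _ _ _ (fun v => v.elim) (norm_snoc_le hyC (b.2.trans hrC))
  | inf r φ ih =>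
    intro x
    simp only [Fml.eval]
    obtain ⟨C, hC0, hrC, hxC, hyC⟩ := common_bound j r x
    obtain ⟨K, hK0, hK⟩ := φ.bdd C hC0
    obtain ⟨h1, h2⟩ := approx_step j φ r ih x
    have := ball_nonempty (LG (FSym X)) r
    have := ball_nonempty (LG (FSym Y)) r
    refine iInf_eq_of_approx (K := K) (fun a => ?_) (fun b => ?_) h1 h2
    · exact hK _ _ _ (fun v => v.elim) (norm_snoc_le hxC (a.2.trans hrC))
    · exact hK _ _ _ (fun v => v.elim) (norm_snoc_le hyC (b.2.trans hrC))

/-- Group von Neumann algebras of the finitely supported permutations of two infinite sets are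
elementarily equivalent. -/
theorem value_eq (j : X ↪ Y) (φ : Fml Empty 0) :
    sentenceValue φ (LG (FSym X)) = sentenceValue φ (LG (FSym Y)) := by
  unfold sentenceValue Fml.value
  have h := eval_em j φ (fun i => i.elim0)
  have h1 : (fun i : Fin 0 => fs ((i.elim0 : FSym X →₀ ℂ))) =
      (Fin.elim0 : Fin 0 → (LG (FSym X)).Elt) := by
    funext i; exact i.elim0
  have h2 : (fun i : Fin 0 => fs ((i.elim0 : FSym X →₀ ℂ).mapDomain (em j))) =
      (Fin.elim0 : Fin 0 → (LG (FSym Y)).Elt) := by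
    funext i; exact i.elim0
  rw [h1, h2] at h
  exact h

end

end Pool.Agent.Helper70K1.VN
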