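import Pool.Agent.Helper70K1.VN.Cont

/-!
# Boundedness and uniform continuity of formulas in group von Neumann algebras
-/

set_option autoImplicit false

open scoped ENNReal

namespace Pool.Agent.Helper70K1.VN

open Pool.Agent.Helper70K1.CL

/-- A bound for the operator norm of the value of a term. -/
noncomputable def _root_.Pool.Agent.Helper70K1.CL.Term.bd (C : ℝ) {V : Type} : Term V → ℝ
  | .var _ => C
  | .zero => 0
  | .one => 1
  | .add s t => s.bd C + t.bd C
  | .mul s t => s.bd C * t.bd C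
  | .adj t => t.bd C
  | .smul a b t => ‖((a : ℂ) + (b : ℂ) * Complex.I)‖ * t.bd C

theorem _root_.Pool.Agent.Helper70K1.CL.Term.bd_nonneg {C : ℝ} (hC : 0 ≤ C) {V : Type} (t : Term V) : 0 ≤ t.bd C := by
  induction t with
  | var v => exact hC
  | zero => exact le_refl _
  | one => exact zero_le_one
  | add s t hs ht => exact add_nonneg hs ht
  | mul s t hs ht => exact mul_nonneg hs ht
  | adj t ht => exact ht
  | smul a b t ht => exact mul_nonneg (norm_nonneg _) ht

/-- A Lipschitz constant of a term for the 2-norm. -/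
noncomputable def _root_.Pool.Agent.Helper70K1.CL.Term.lip (C : ℝ) {V : Type} : Term V → ℝ
  | .var _ => 1
  | .zero => 0
  | .one => 0
  | .add s t => s.lip C + t.lip C
  | .mul s t => s.bd C * t.lip C + s.lip C * t.bd C
  | .adj t => t.lip C
  | .smul a b t => ‖((a : ℂ) + (b : ℂ) * Complex.I)‖ * t.lip C

theorem _root_.Pool.Agent.Helper70K1.CL.Term.lip_nonneg {C : ℝ} (hC : 0 ≤ C) {V : Type} (t : Term V) : 0 ≤ t.lip C := by
  induction t with
  | var v => exact zero_le_one
  | zero => exact le_refl _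
  | one => exact le_refl _
  | add s t hs ht => exact add_nonneg hs ht
  | mul s t hs ht =>
    exact add_nonneg (mul_nonneg (s.bd_nonneg hC) ht) (mul_nonneg hs (t.bd_nonneg hC))
  | adj t ht => exact ht
  | smul a b t ht => exact mul_nonneg (norm_nonneg _) ht

theorem _root_.Pool.Agent.Helper70K1.CL.Term.norm_val_le {C : ℝ} (hC : 0 ≤ C) {V : Type} (t : Term V) {G : Type} [Group G]
    (e : V → (LG G).Elt) (he : ∀ v, ‖e v‖ ≤ C) : ‖t.val e‖ ≤ t.bd C := by
  induction t with
  | var v => exact he v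
  | zero =>
    rw [Term.val, zero_eq, norm_zero]
    exact le_refl _
  | one =>
    rw [Term.val, one_eq]
    exact norm_one_le
  | add s t hs ht =>
    rw [Term.val, add_eq]
    exact (norm_add_le _ _).trans (add_le_add hs ht)
  | mul s t hs ht =>
    rw [Term.val, mul_eq]
    exact (norm_mul_le _ _).trans (mul_le_mul hs ht (norm_nonneg _) (s.bd_nonneg hC))
  | adj t ht =>
    rw [Term.val, adj_eq, norm_star]
    exact ht
  | smul a b t ht =>
    rw [Term.val, smul_eq, norm_smul]
    exact mul_le_mul_of_nonneg_left ht (norm_nonneg _)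

theorem _root_.Pool.Agent.Helper70K1.CL.Term.norm2_val_sub_le {C δ : ℝ} (hC : 0 ≤ C) (hδ : 0 ≤ δ) {V : Type} (t : Term V)
    {G : Type} [Group G]
    (e e' : V → (LG G).Elt) (he : ∀ v, ‖e v‖ ≤ C) (he' : ∀ v, ‖e' v‖ ≤ C)
    (h : ∀ v, norm2 (LG G) (e v - e' v) ≤ δ) :
    norm2 (LG G) (t.val e - t.val e') ≤ t.lip C * δ := by
  induction t with
  | var v => simpa [Term.val, Term.lip] using h v
  | zero => simp only [Term.val, Term.lip, sub_self, norm2_zero, zero_mul, le_refl]
  | one => simp only [Term.val, Term.lip, sub_self, norm2_zero, zero_mul, le_refl]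
  | add s t hs ht =>
    simp only [Term.val, Term.lip, add_eq]
    rw [add_sub_add_comm, add_mul]
    exact (norm2_add _ _).trans (add_le_add hs ht)
  | mul s t hs ht =>
    simp only [Term.val, Term.lip, mul_eq]
    have h1 : s.val e * t.val e - s.val e' * t.val e' =
        s.val e * (t.val e - t.val e') +
          (s.val e - s.val e') * t.val e' := by
      noncomm_ring
    rw [h1, add_mul]
    refine (norm2_add _ _).trans (add_le_add ?_ ?_)
    · refine (norm2_mul_left _ _).trans ?_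
      rw [mul_assoc]
      exact mul_le_mul (s.norm_val_le hC e he) ht (norm2_nonneg _) (s.bd_nonneg hC)
    · refine (norm2_mul_right _ _).trans ?_
      rw [mul_right_comm]
      exact mul_le_mul hs (t.norm_val_le hC e' he') (norm_nonneg _)
        (mul_nonneg (s.lip_nonneg hC) hδ)
  | adj t ht =>
    simp only [Term.val, Term.lip, adj_eq]
    rw [← star_sub, norm2_star]
    exact ht
  | smul a b t ht =>
    simp only [Term.val, Term.lip, smul_eq]
    rw [← smul_sub, norm2_smul, mul_assoc]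
    exact mul_le_mul_of_nonneg_left ht (norm_nonneg _)

theorem norm_elim_le {A : Type} [Norm A] {V : Type} {n : ℕ} {C : ℝ} {e : V → A} {x : Fin n → A}
    (he : ∀ v, ‖e v‖ ≤ C) (hx : ∀ i, ‖x i‖ ≤ C) (w : V ⊕ Fin n) :
    ‖(Sum.elim e x : V ⊕ Fin n → A) w‖ ≤ C := by
  cases w with
  | inl v => exact he v
  | inr i => exact hx i

theorem norm_snoc_le {A : Type} [Norm A] {n : ℕ} {C : ℝ} {x : Fin n → A} {a : A}
    (hx : ∀ i, ‖x i‖ ≤ C) (ha : ‖a‖ ≤ C) (i : Fin (n + 1)) :
    ‖snoc x a i‖ ≤ C := by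
  unfold snoc
  refine Fin.lastCases ?_ (fun i => ?_) i
  · simpa using ha
  · simpa using hx i

theorem ball_nonempty (N : TracialVN) (r : ℕ+) : Nonempty (N.Ball r) :=
  ⟨⟨0, by rw [norm_eq, norm_zero]; exact Nat.cast_nonneg _⟩⟩

theorem abs_iSup_le {ι : Type} [Nonempty ι] {f : ι → ℝ} {K : ℝ} (h : ∀ i, |f i| ≤ K) :
    |⨆ i, f i| ≤ K := by
  have hb : BddAbove (Set.range f) := ⟨K, by rintro _ ⟨i, rfl⟩; exact (abs_le.1 (h i)).2⟩
  obtain ⟨i⟩ := ‹Nonempty ι›
  rw [abs_le]
  constructor
  · exact (abs_le.1 (h i)).1.trans (le_ciSup hb i)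
  · have : Nonempty ι := ⟨i⟩
    exact ciSup_le fun i => (abs_le.1 (h i)).2

theorem abs_iInf_le {ι : Type} [Nonempty ι] {f : ι → ℝ} {K : ℝ} (h : ∀ i, |f i| ≤ K) :
    |⨅ i, f i| ≤ K := by
  have hb : BddBelow (Set.range f) := ⟨-K, by rintro _ ⟨i, rfl⟩; exact (abs_le.1 (h i)).1⟩
  obtain ⟨i⟩ := ‹Nonempty ι›
  rw [abs_le]
  constructor
  · have : Nonempty ι := ⟨i⟩
    exact le_ciInf fun i => (abs_le.1 (h i)).1
  · exact (ciInf_le hb i).trans (abs_le.1 (h i)).2

theorem abs_iSup_sub_le {ι : Type} [Nonempty ι] {f g : ι → ℝ} {K ε : ℝ} (hf : ∀ i, |f i| ≤ K)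
    (hg : ∀ i, |g i| ≤ K) (h : ∀ i, |f i - g i| ≤ ε) : |(⨆ i, f i) - ⨆ i, g i| ≤ ε := by
  have hbf : BddAbove (Set.range f) := ⟨K, by rintro _ ⟨i, rfl⟩; exact (abs_le.1 (hf i)).2⟩
  have hbg : BddAbove (Set.range g) := ⟨K, by rintro _ ⟨i, rfl⟩; exact (abs_le.1 (hg i)).2⟩
  rw [abs_le]
  constructor
  · rw [neg_le_sub_iff_le_add]
    refine ciSup_le fun i => ?_
    have h1 := (abs_le.1 (h i)).1
    have h2 := le_ciSup hbf i
    linarith
  · rw [sub_le_iff_le_add]
    refine ciSup_le fun i => ?_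
    have h1 := (abs_le.1 (h i)).2
    have h2 := le_ciSup hbg i
    linarith

theorem abs_iInf_sub_le {ι : Type} [Nonempty ι] {f g : ι → ℝ} {K ε : ℝ} (hf : ∀ i, |f i| ≤ K)
    (hg : ∀ i, |g i| ≤ K) (h : ∀ i, |f i - g i| ≤ ε) : |(⨅ i, f i) - ⨅ i, g i| ≤ ε := by
  have hbf : BddBelow (Set.range f) := ⟨-K, by rintro _ ⟨i, rfl⟩; exact (abs_le.1 (hf i)).1⟩
  have hbg : BddBelow (Set.range g) := ⟨-K, by rintro _ ⟨i, rfl⟩; exact (abs_le.1 (hg i)).1⟩
  rw [abs_le]
  constructor
  · have : (⨅ i, g i) - ε ≤ ⨅ i, f i := by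
      refine le_ciInf fun i => ?_
      have h1 := (abs_le.1 (h i)).1
      have h2 := ciInf_le hbg i
      linarith
    linarith
  · have : (⨅ i, f i) - ε ≤ ⨅ i, g i := by
      refine le_ciInf fun i => ?_
      have h1 := (abs_le.1 (h i)).2
      have h2 := ciInf_le hbf i
      linarith
    linarith

/-- The values of a formula are bounded, uniformly in all group von Neumann algebras. -/
theorem _root_.Pool.Agent.Helper70K1.CL.Fml.bdd {V : Type} {n : ℕ} (φ : Fml V n) : ∀ C : ℝ, 0 ≤ C → ∃ K : ℝ, 0 ≤ K ∧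
    ∀ (G : Type) [Group G] (e : V → (LG G).Elt) (x : Fin n → (LG G).Elt),
      (∀ v, ‖e v‖ ≤ C) → (∀ i, ‖x i‖ ≤ C) → |φ.eval (LG G) e x| ≤ K := by
  induction φ with
  | reTr t =>
    intro C hC
    refine ⟨t.bd C, t.bd_nonneg hC, fun G _ e x he hx => ?_⟩
    simp only [Fml.eval, tr_eq]
    refine (Complex.abs_re_le_norm _).trans ((norm_tr_le _).trans ((norm2_le_norm _).trans ?_))
    exact t.norm_val_le hC _ (norm_elim_le he hx)
  | imTr t =>
    intro C hC
    refine ⟨t.bd C, t.bd_nonneg hC, fun G _ e x he hx => ?_⟩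
    simp only [Fml.eval, tr_eq]
    refine (Complex.abs_im_le_norm _).trans ((norm_tr_le _).trans ((norm2_le_norm _).trans ?_))
    exact t.norm_val_le hC _ (norm_elim_le he hx)
  | dist s t =>
    intro C hC
    refine ⟨s.bd C + t.bd C, add_nonneg (s.bd_nonneg hC) (t.bd_nonneg hC),
      fun G _ e x he hx => ?_⟩
    simp only [Fml.eval, dist2_eq]
    rw [abs_of_nonneg (norm2_nonneg _)]
    refine (norm2_le_norm _).trans ((norm_sub_le _ _).trans (add_le_add ?_ ?_))
    · exact s.norm_val_le hC _ (norm_elim_le he hx)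
    · exact t.norm_val_le hC _ (norm_elim_le he hx)
  | conn k u φ ih =>
    intro C hC
    choose K hK0 hK using fun i => ih i C hC
    have hcpt : IsCompact (Set.univ.pi fun i : Fin k => Set.Icc (-K i) (K i)) :=
      isCompact_univ_pi fun i => isCompact_Icc
    obtain ⟨M, hM⟩ := hcpt.exists_bound_of_continuousOn (f := u) u.continuous.continuousOn
    refine ⟨max M 0, le_max_right _ _, fun G _ e x he hx => ?_⟩
    simp only [Fml.eval]
    refine (hM _ ?_).trans (le_max_left _ _)
    intro i _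
    exact abs_le.1 (hK i G e x he hx)
  | sup r φ ih =>
    intro C hC
    obtain ⟨K, hK0, hK⟩ := ih (max C (r : ℕ)) (hC.trans (le_max_left _ _))
    refine ⟨K, hK0, fun G _ e x he hx => ?_⟩
    simp only [Fml.eval]
    have := ball_nonempty (LG G) r
    refine abs_iSup_le fun a => hK G e _ (fun v => (he v).trans (le_max_left _ _)) ?_
    exact norm_snoc_le (fun i => (hx i).trans (le_max_left _ _)) (a.2.trans (le_max_right _ _))
  | inf r φ ih =>
    intro C hC
    obtain ⟨K, hK0, hK⟩ := ih (max C (r : ℕ)) (hC.trans (le_max_left _ _))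
    refine ⟨K, hK0, fun G _ e x he hx => ?_⟩
    simp only [Fml.eval]
    have := ball_nonempty (LG G) r
    refine abs_iInf_le fun a => hK G e _ (fun v => (he v).trans (le_max_left _ _)) ?_
    exact norm_snoc_le (fun i => (hx i).trans (le_max_left _ _)) (a.2.trans (le_max_right _ _))

theorem norm2_elim_le {G : Type} [Group G] {V : Type} {n : ℕ} {δ : ℝ}
    {e e' : V → (LG G).Elt} {x x' : Fin n → (LG G).Elt}
    (he : ∀ v, norm2 (LG G) (e v - e' v) ≤ δ) (hx : ∀ i, norm2 (LG G) (x i - x' i) ≤ δ)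
    (w : V ⊕ Fin n) :
    norm2 (LG G) ((Sum.elim e x : V ⊕ Fin n → (LG G).Elt) w - Sum.elim e' x' w) ≤ δ := by
  cases w with
  | inl v => exact he v
  | inr i => exact hx i

/-- Formulas are uniformly continuous on bounded sets for the 2-norm. -/
theorem _root_.Pool.Agent.Helper70K1.CL.Fml.unif {V : Type} {n : ℕ} (φ : Fml V n) : ∀ C : ℝ, 0 ≤ C → ∀ ε : ℝ, 0 < ε →
    ∃ δ : ℝ, 0 < δ ∧
    ∀ (G : Type) [Group G] (e e' : V → (LG G).Elt) (x x' : Fin n → (LG G).Elt),
      (∀ v, ‖e v‖ ≤ C) → (∀ i, ‖x i‖ ≤ C) → (∀ v, ‖e' v‖ ≤ C) → (∀ i, ‖x' i‖ ≤ C) →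
      (∀ v, norm2 (LG G) (e v - e' v) ≤ δ) → (∀ i, norm2 (LG G) (x i - x' i) ≤ δ) →
      |φ.eval (LG G) e x - φ.eval (LG G) e' x'| ≤ ε := by
  induction φ with
  | reTr t =>
    intro C hC ε hε
    have hl : 0 < t.lip C + 1 := by have := t.lip_nonneg hC; linarith
    refine ⟨ε / (t.lip C + 1), by positivity, fun G _ e e' x x' he hx he' hx' hee hxx => ?_⟩
    simp only [Fml.eval, tr_eq]
    rw [← Complex.sub_re, ← map_sub]
    refine (Complex.abs_re_le_norm _).trans ((norm_tr_le _).trans ?_)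
    refine (t.norm2_val_sub_le hC (by positivity) _ _ (norm_elim_le he hx) (norm_elim_le he' hx')
      (norm2_elim_le hee hxx)).trans ?_
    rw [mul_div_assoc', div_le_iff₀ hl]
    nlinarith
  | imTr t =>
    intro C hC ε hε
    have hl : 0 < t.lip C + 1 := by have := t.lip_nonneg hC; linarith
    refine ⟨ε / (t.lip C + 1), by positivity, fun G _ e e' x x' he hx he' hx' hee hxx => ?_⟩
    simp only [Fml.eval, tr_eq]
    rw [← Complex.sub_im, ← map_sub]
    refine (Complex.abs_im_le_norm _).trans ((norm_tr_le _).trans ?_)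
    refine (t.norm2_val_sub_le hC (by positivity) _ _ (norm_elim_le he hx) (norm_elim_le he' hx')
      (norm2_elim_le hee hxx)).trans ?_
    rw [mul_div_assoc', div_le_iff₀ hl]
    nlinarith
  | dist s t =>
    intro C hC ε hε
    have hs := s.lip_nonneg hC
    have ht := t.lip_nonneg hC
    have hl : 0 < s.lip C + t.lip C + 1 := by linarith
    refine ⟨ε / (s.lip C + t.lip C + 1), by positivity,
      fun G _ e e' x x' he hx he' hx' hee hxx => ?_⟩
    simp only [Fml.eval, dist2_eq]
    refine (abs_norm2_sub _ _).trans ?_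
    rw [sub_sub_sub_comm, sub_eq_add_neg (s.val _ - s.val _)]
    refine (norm2_add _ _).trans ?_
    rw [norm2_neg]
    have h1 := s.norm2_val_sub_le hC (by positivity) _ _ (norm_elim_le he hx)
      (norm_elim_le he' hx') (norm2_elim_le hee hxx)
    have h2 := t.norm2_val_sub_le hC (by positivity) _ _ (norm_elim_le he hx)
      (norm_elim_le he' hx') (norm2_elim_le hee hxx)
    refine (add_le_add h1 h2).trans ?_
    rw [← add_mul, mul_div_assoc', div_le_iff₀ hl]
    nlinarith
  | conn k u φ ih =>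
    intro C hC ε hε
    choose K hK0 hK using fun i => (φ i).bdd C hC
    have hcpt : IsCompact (Set.univ.pi fun i : Fin k => Set.Icc (-K i) (K i)) :=
      isCompact_univ_pi fun i => isCompact_Icc
    have huc := hcpt.uniformContinuousOn_of_continuous (f := u) u.continuous.continuousOn
    rw [Metric.uniformContinuousOn_iff] at huc
    obtain ⟨δ', hδ', hu⟩ := huc ε hε
    choose δ hδ0 hδ using fun i => ih i C hC (δ' / 2) (by positivity)
    obtain ⟨δ₀, hδ₀, hle⟩ : ∃ δ₀ : ℝ, 0 < δ₀ ∧ ∀ i, δ₀ ≤ δ i := by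
      rcases isEmpty_or_nonempty (Fin k) with hem | hne
      · exact ⟨1, one_pos, fun i => hem.elim i⟩
      · refine ⟨Finset.univ.inf' Finset.univ_nonempty δ, ?_, fun i => Finset.inf'_le _ (by simp)⟩
        rw [Finset.lt_inf'_iff]
        exact fun i _ => hδ0 i
    refine ⟨δ₀, hδ₀, fun G _ e e' x x' he hx he' hx' hee hxx => ?_⟩
    simp only [Fml.eval]
    rw [← Real.dist_eq]
    refine (hu _ ?_ _ ?_ ?_).le
    · intro i _
      exact abs_le.1 (hK i G e x he hx)
    · intro i _
      exact abs_le.1 (hK i G e' x' he' hx')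
    · refine lt_of_le_of_lt ((dist_pi_le_iff (by positivity : 0 ≤ δ' / 2)).2 fun i => ?_)
        (by linarith : δ' / 2 < δ')
      rw [Real.dist_eq]
      exact hδ i G e e' x x' he hx he' hx' (fun v => (hee v).trans (hle i))
        (fun j => (hxx j).trans (hle i))
  | sup r φ ih =>
    intro C hC ε hε
    have hC' : 0 ≤ max C (r : ℕ) := hC.trans (le_max_left _ _)
    obtain ⟨K, hK0, hK⟩ := φ.bdd (max C (r : ℕ)) hC'
    obtain ⟨δ, hδ0, hδ⟩ := ih (max C (r : ℕ)) hC' ε hε
    refine ⟨δ, hδ0, fun G _ e e' x x' he hx he' hx' hee hxx => ?_⟩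
    simp only [Fml.eval]
    have hC1 : C ≤ max C (r : ℕ) := le_max_left _ _
    have := ball_nonempty (LG G) r
    refine abs_iSup_sub_le (K := K) (fun a => ?_) (fun a => ?_) (fun a => ?_)
    · exact hK G e _ (fun v => (he v).trans hC1)
        (norm_snoc_le (fun i => (hx i).trans hC1) (a.2.trans (le_max_right _ _)))
    · exact hK G e' _ (fun v => (he' v).trans hC1)
        (norm_snoc_le (fun i => (hx' i).trans hC1) (a.2.trans (le_max_right _ _)))
    · refine hδ G e e' _ _ (fun v => (he v).trans hC1)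
        (norm_snoc_le (fun i => (hx i).trans hC1) (a.2.trans (le_max_right _ _)))
        (fun v => (he' v).trans hC1)
        (norm_snoc_le (fun i => (hx' i).trans hC1) (a.2.trans (le_max_right _ _))) hee ?_
      intro i
      unfold snoc
      refine Fin.lastCases ?_ (fun i => ?_) i
      · simpa [norm2_zero] using hδ0.le
      · simpa using hxx i
  | inf r φ ih =>
    intro C hC ε hε
    have hC' : 0 ≤ max C (r : ℕ) := hC.trans (le_max_left _ _)
    obtain ⟨K, hK0, hK⟩ := φ.bdd (max C (r : ℕ)) hC'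
    obtain ⟨δ, hδ0, hδ⟩ := ih (max C (r : ℕ)) hC' ε hε
    refine ⟨δ, hδ0, fun G _ e e' x x' he hx he' hx' hee hxx => ?_⟩
    simp only [Fml.eval]
    have hC1 : C ≤ max C (r : ℕ) := le_max_left _ _
    have := ball_nonempty (LG G) r
    refine abs_iInf_sub_le (K := K) (fun a => ?_) (fun a => ?_) (fun a => ?_)
    · exact hK G e _ (fun v => (he v).trans hC1)
        (norm_snoc_le (fun i => (hx i).trans hC1) (a.2.trans (le_max_right _ _)))
    · exact hK G e' _ (fun v => (he' v).trans hC1)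
        (norm_snoc_le (fun i => (hx' i).trans hC1) (a.2.trans (le_max_right _ _)))
    · refine hδ G e e' _ _ (fun v => (he v).trans hC1)
        (norm_snoc_le (fun i => (hx i).trans hC1) (a.2.trans (le_max_right _ _)))
        (fun v => (he' v).trans hC1)
        (norm_snoc_le (fun i => (hx' i).trans hC1) (a.2.trans (le_max_right _ _))) hee ?_
      intro i
      unfold snoc
      refine Fin.lastCases ?_ (fun i => ?_) i
      · simpa [norm2_zero] using hδ0.le
      · simpa using hxx i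

end Pool.Agent.Helper70K1.VN
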