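import Pool.Agent.Helper70K1.VN.Main

/-!
# `L(S_∞)` is a hyperfinite II₁ factor
-/

set_option autoImplicit false

open scoped ENNReal

namespace Pool.Agent.Helper70K1.VN

open Pool.Agent.Helper70K1.CL

section

variable {G : Type} [Group G]

theorem coef_lm_mul (g : G) (y : (LG G).Elt) (h : G) : coef (lm g * y) h = coef y (g⁻¹ * h) := rfl

theorem coef_mul_lm (g : G) (y : (LG G).Elt) (h : G) :
    coef (y * lm g) h = coef y (h * g⁻¹) := by
  show (op y (lam g (dl 1))) h = _
  rw [lam_dl, mul_one, coord_eq (op_mem y)]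
  rfl

theorem coef_conj {x : (LG G).Elt} (hx : ∀ y : (LG G).Elt, x * y = y * x) (g k : G) :
    coef x (g * k * g⁻¹) = coef x k := by
  have h := congrArg (fun y => coef y (g * k)) (hx (lm g))
  simp only [coef_mul_lm, coef_lm_mul] at h
  rw [h]
  congr 1
  group

/-- The commutation theorem: an operator commuting with the right translations commutes with an
operator commuting with the left translations. -/
theorem commutation {T S : L2 G →L[ℂ] L2 G} (hT : ∀ g : G, rho g * T = T * rho g)
    (hS : ∀ g : G, lam g * S = S * lam g) : T * S = S * T := by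
  have hT' : ∀ g k : G, (T (dl k)) g = (T (dl 1)) (g * k⁻¹) :=
    fun g k => coord_eq (mem_grpAlg.2 hT) g k
  have hS' : ∀ g k : G, (S (dl k)) g = (S (dl 1)) (k⁻¹ * g) := by
    intro g k
    have h1 : (dl k : L2 G) = lam k (dl 1) := by rw [lam_dl, mul_one]
    have h2 : S (lam k (dl 1)) = lam k (S (dl 1)) := by
      exact (congrArg (fun R : L2 G →L[ℂ] L2 G => R (dl 1)) (hS k)).symm
    rw [h1, h2, lam_apply]
  have hprod : ∀ (P Q : L2 G →L[ℂ] L2 G) (g h : G),
      ((P * Q) (dl h)) g = ∑' k, (P (dl k)) g * (Q (dl h)) k := by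
    intro P Q g h
    have h1 : ((P * Q) (dl h)) g = inner ℂ ((star P) (dl g)) (Q (dl h)) := by
      rw [← inner_dl_left, ContinuousLinearMap.star_eq_adjoint,
        ContinuousLinearMap.adjoint_inner_left]
      rfl
    rw [h1, inner_tsum]
    congr 1
    funext k
    rw [star_apply_coord]
    simp
  apply ext_dl
  intro h
  apply ext_coord
  intro g
  rw [hprod, hprod]
  let e : G ≃ G := ((Equiv.inv G).trans (Equiv.mulLeft h)).trans (Equiv.mulRight g)
  rw [← e.tsum_eq]
  congr 1
  funext k
  have he : e k = h * k⁻¹ * g := rfl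
  rw [he, hT' g (h * k⁻¹ * g), hS' (h * k⁻¹ * g) h, hS' g k, hT' k h]
  rw [mul_comm]
  congr 2
  · group
  · group

end

/-- The centre of `L(FSym X)` is trivial. -/
theorem isFactor_LG {X : Type} [Infinite X] : IsFactor (LG (FSym X)) := by
  classical
  intro x hx
  simp only [mul_eq] at hx
  refine ⟨coef x 1, ?_⟩
  rw [smul_eq, one_eq]
  apply ext_coef
  intro k
  have h1 : coef (coef x 1 • (1 : (LG (FSym X)).Elt)) k =
      coef x 1 * coef (1 : (LG (FSym X)).Elt) k := rfl
  rw [h1, ← fs_one, coef_fs]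
  by_cases hk : k = 1
  · subst hk
    rw [Finsupp.single_eq_same, mul_one]
  · rw [Finsupp.single_eq_of_ne hk, mul_zero]
    by_contra hne
    have hpos : 0 < ‖coef x k‖ / 2 := by
      have := norm_pos_iff.2 hne
      positivity
    have hfin := finite_large x hpos
    obtain ⟨y, hy⟩ : ∃ y, y ∈ sup k := by
      by_contra hcon
      push Not at hcon
      apply hk
      apply Subtype.ext
      ext y
      have := hcon y
      rw [mem_sup, not_not] at this
      exact this
    obtain ⟨z, hz⟩ := Set.Infinite.exists_notMem_finset (Set.infinite_univ (α := X))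
      (usup hfin.toFinset)
    have h2 := coef_conj hx (sw y z) k
    have h3 : sw y z * k * (sw y z)⁻¹ = cj (sw y z).1 k := rfl
    apply hz.2
    rw [mem_usup]
    refine ⟨sw y z * k * (sw y z)⁻¹, ?_, ?_⟩
    · rw [Set.Finite.mem_toFinset]
      show ‖coef x k‖ / 2 < ‖coef x (sw y z * k * (sw y z)⁻¹)‖
      rw [h2]
      linarith
    · rw [h3]
      have h4 : (sw y z).1 y = z := Equiv.swap_apply_left y z
      have h5 := (mem_sup_cj (θ := (sw y z).1) (σ := k) (x := y)).2 hy
      rw [h4] at h5
      exact h5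

/-- Left translation as a homomorphism. -/
noncomputable def lamHom (G : Type) [Group G] : G →* (L2 G →L[ℂ] L2 G) where
  toFun := lam
  map_one' := lam_one
  map_mul' g h := (lam_mul g h).symm

/-- The permutations with support in `F`, as a subgroup. -/
def GFsub {X : Type} (F : Finset X) : Subgroup (FSym X) where
  carrier := {σ | ∀ x, x ∉ F → σ.1 x = x}
  one_mem' := fun x _ => rfl
  mul_mem' := by
    intro σ τ hσ hτ x hx
    show σ.1 (τ.1 x) = x
    rw [hτ x hx, hσ x hx]
  inv_mem' := by
    intro σ hσ x hx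
    show σ.1⁻¹ x = x
    rw [Equiv.Perm.inv_eq_iff_eq, hσ x hx]

theorem finite_GFsub {X : Type} (F : Finset X) : (GFsub F : Set (FSym X)).Finite := by
  refine (finite_sup_subset F).subset fun σ hσ x hx => ?_
  by_contra hxF
  exact (mem_sup.1 hx) (hσ x hxF)

/-- The finite-dimensional `*`-algebra generated by the permutations with support in `F`. -/
noncomputable def AF {X : Type} (F : Finset X) :
    StarSubalgebra ℂ (L2 (FSym X) →L[ℂ] L2 (FSym X)) :=
  StarAlgebra.adjoin ℂ ((GFsub F).toSubmonoid.map (lamHom (FSym X)) : Set _)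

theorem star_image {X : Type} (F : Finset X) :
    star ((GFsub F).toSubmonoid.map (lamHom (FSym X)) : Set (L2 (FSym X) →L[ℂ] L2 (FSym X))) =
      ((GFsub F).toSubmonoid.map (lamHom (FSym X)) : Set _) := by
  have h : ∀ T : L2 (FSym X) →L[ℂ] L2 (FSym X),
      T ∈ ((GFsub F).toSubmonoid.map (lamHom (FSym X)) : Set _) →
      star T ∈ ((GFsub F).toSubmonoid.map (lamHom (FSym X)) : Set _) := by
    rintro _ ⟨σ, hσ, rfl⟩
    exact ⟨σ⁻¹, (GFsub F).inv_mem hσ, (star_lam σ).symm⟩
  ext T
  constructor
  · intro hT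
    have := h _ hT
    rwa [star_star] at this
  · exact h T

theorem finiteDimensional_AF {X : Type} (F : Finset X) : FiniteDimensional ℂ (AF F) := by
  have h1 : (AF F).toSubalgebra = Algebra.adjoin ℂ
      ((GFsub F).toSubmonoid.map (lamHom (FSym X)) : Set (L2 (FSym X) →L[ℂ] L2 (FSym X))) := by
    unfold AF
    rw [StarAlgebra.adjoin_toSubalgebra, star_image, Set.union_self]
  have h2 : Subalgebra.toSubmodule (AF F).toSubalgebra = Submodule.span ℂ
      ((GFsub F).toSubmonoid.map (lamHom (FSym X)) : Set (L2 (FSym X) →L[ℂ] L2 (FSym X))) := by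
    rw [h1, Algebra.adjoin_eq_span, Submonoid.closure_eq]
  have h3 : ((GFsub F).toSubmonoid.map (lamHom (FSym X)) :
      Set (L2 (FSym X) →L[ℂ] L2 (FSym X))).Finite := (finite_GFsub F).image _
  have h4 : FiniteDimensional ℂ (Submodule.span ℂ
      ((GFsub F).toSubmonoid.map (lamHom (FSym X)) : Set (L2 (FSym X) →L[ℂ] L2 (FSym X)))) :=
    FiniteDimensional.span_of_finite ℂ h3
  rw [← h2] at h4
  exact h4

/-- The algebra `AF F` as a set of operators. -/
def AS {X : Type} (F : Finset X) : Set (BH (L2 (FSym X))) := {x | toOp x ∈ AF F}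

theorem isFinDim_AF {X : Type} (F : Finset X) : IsFinDimStarSubalgebra (AS F) where
  span := by
    have hfd := finiteDimensional_AF F
    let b := Module.finBasis ℂ (AF F)
    refine ⟨_, fun i => (b i).1, fun x => ?_⟩
    constructor
    · intro hx
      refine ⟨fun i => b.repr ⟨toOp x, hx⟩ i, fun v => ?_⟩
      have h := congrArg Subtype.val (b.sum_repr ⟨toOp x, hx⟩)
      rw [AddSubmonoidClass.coe_finsetSum] at h
      have h2 := congrArg (fun y : L2 (FSym X) →L[ℂ] L2 (FSym X) => y v) h
      simp only [sum_apply] at h2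
      exact h2.symm
    · rintro ⟨c, hc⟩
      have h : (toOp x) = ∑ i, c i • ((b i : AF F) : L2 (FSym X) →L[ℂ] L2 (FSym X)) := by
        ext1 v
        rw [sum_apply]
        exact hc v
      have h2 : (∑ i, c i • ((b i : AF F) : L2 (FSym X) →L[ℂ] L2 (FSym X))) ∈ AF F :=
        sum_mem fun i _ => (AF F).smul_mem (b i).2 (c i)
      rw [← h] at h2
      exact h2
  one := one_mem (AF F)
  mul x hx y hy := by
    have h : toOp x * toOp y ∈ AF F := mul_mem hx hy
    exact h
  adj x hx := by
    have h : star (toOp x) ∈ AF F := star_mem hx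
    exact h

theorem mem_comm {H : Type} [NormedAddCommGroup H] [InnerProductSpace ℂ H] [CompleteSpace H]
    {S : Set (BH H)} {y : BH H} :
    y ∈ comm S ↔ ∀ x ∈ S, toOp x * toOp y = toOp y * toOp x := Iff.rfl

theorem isHyperfinite_LG : IsHyperfinite (LG (FSym ℕ)) := by
  refine ⟨fun n => AS (Finset.range n), fun n => isFinDim_AF _, fun n => ?_, fun x => ?_⟩
  · have h : AF (Finset.range n) ≤ AF (Finset.range (n + 1)) := by
      refine StarAlgebra.adjoin_mono ?_
      rintro _ ⟨σ, hσ, rfl⟩
      exact ⟨σ, fun x hx => hσ x fun h => hx (Finset.range_mono (Nat.le_succ n) h), rfl⟩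
    intro x hx
    exact h hx
  · constructor
    · intro hT
      rw [mem_comm]
      intro S hS
      rw [mem_comm] at hS
      have hT' : ∀ g : FSym ℕ, rho g * toOp x = toOp x * rho g := mem_grpAlg.1 hT
      have hS' : ∀ g : FSym ℕ, lam g * toOp S = toOp S * lam g := by
        intro g
        have hg : lam g ∈ AF (Finset.range ((sup g).sup id + 1)) := by
          refine StarAlgebra.subset_adjoin ℂ _ ⟨g, fun x hx => ?_, rfl⟩
          by_contra hne
          apply hx
          rw [Finset.mem_range]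
          exact Nat.lt_succ_of_le (Finset.le_sup (f := id) (mem_sup.2 hne))
        exact hS (lam g) (Set.mem_iUnion.2 ⟨(sup g).sup id + 1, hg⟩)
      exact (commutation hT' hS').symm
    · intro hx
      rw [mem_comm] at hx
      refine mem_grpAlg.2 fun g => hx (rho g) (mem_comm.2 ?_)
      intro y hy
      obtain ⟨n, hn⟩ := Set.mem_iUnion.1 hy
      have hle : AF (Finset.range n) ≤ (grpAlg (FSym ℕ)).toStarSubalgebra := by
        refine StarAlgebra.adjoin_le ?_
        rintro _ ⟨σ, hσ, rfl⟩
        exact lam_mem σ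
      exact (mem_grpAlg.1 (hle hn) g).symm

theorem isInfiniteDimensional_LG : IsInfiniteDimensional (LG (FSym ℕ)) := by
  intro k
  refine ⟨fun i => lm (sw 0 (i.1 + 1)), fun c hc i => ?_⟩
  have h1 := hc (dl 1)
  have h2 : ∀ i : Fin k, (lm (sw 0 (i.1 + 1)) : (LG (FSym ℕ)).Elt).1.app (dl 1) =
      dl (sw 0 (i.1 + 1)) := by
    intro i
    show lam (sw 0 (i.1 + 1)) (dl 1) = _
    rw [lam_dl, mul_one]
  have h3 : (∑ i : Fin k, c i • (dl (sw 0 (i.1 + 1)) : L2 (FSym ℕ))) = 0 := by
    rw [← h1]
    exact Finset.sum_congr rfl fun i _ => by rw [h2]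
  have h4 := congrArg (fun η : L2 (FSym ℕ) => η (sw 0 (i.1 + 1))) h3
  simp only [coe_sum] at h4
  rw [Finset.sum_eq_single i] at h4
  · rw [lp.coeFn_smul, Pi.smul_apply, dl_self, smul_eq_mul, mul_one] at h4
    exact h4
  · intro l _ hl
    rw [lp.coeFn_smul, Pi.smul_apply, dl_ne, smul_zero]
    intro h
    rcases sw_inj (by omega) h with ⟨_, h2⟩ | ⟨h1, _⟩
    · exact hl (Fin.ext (by omega))
    · omega
  · intro h
    exact absurd (Finset.mem_univ i) h

/-- `L(S_∞)` is a hyperfinite II₁ factor. -/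
theorem isHyperfiniteII1Factor_LG : IsHyperfiniteII1Factor (LG (FSym ℕ)) :=
  ⟨isFactor_LG, isHyperfinite_LG, isInfiniteDimensional_LG⟩

end Pool.Agent.Helper70K1.VN
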