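import Pool.Agent.Helper70K1.VN.Grp

/-!
# Isomorphisms preserve formulas; boundedness and uniform continuity of formulas
-/

set_option autoImplicit false

open scoped ENNReal

namespace Pool.Agent.Helper70K1.VN

open Pool.Agent.Helper70K1.CL

/-! ### Isomorphisms -/

/-- An isomorphism of tracial von Neumann algebras. -/
structure Iso (N N' : TracialVN) where
  Φ : N.Elt ≃ N'.Elt
  zero : Φ 0 = 0
  one : Φ 1 = 1
  add : ∀ x y, Φ (x + y) = Φ x + Φ y
  mul : ∀ x y, Φ (x * y) = Φ x * Φ y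
  adj : ∀ x, Φ (star x) = star (Φ x)
  smul : ∀ (c : ℂ) x, Φ (c • x) = c • Φ x
  norm : ∀ x, ‖Φ x‖ = ‖x‖
  tr : ∀ x : N.Elt, TracialVN.tr (Φ x) = TracialVN.tr x

theorem Iso.val {N N' : TracialVN} (I : Iso N N') {V : Type} (t : Term V) (e : V → N.Elt) :
    t.val (fun v => I.Φ (e v)) = I.Φ (t.val e) := by
  induction t with
  | var v => rfl
  | zero => exact I.zero.symm
  | one => exact I.one.symm
  | add s t hs ht => simp only [Term.val, hs, ht, add_eq, I.add]
  | mul s t hs ht => simp only [Term.val, hs, ht, mul_eq, I.mul]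
  | adj t ht => simp only [Term.val, ht, adj_eq, I.adj]
  | smul a b t ht => simp only [Term.val, ht, smul_eq, I.smul]

theorem Iso.neg {N N' : TracialVN} (I : Iso N N') (x : N.Elt) : I.Φ (-x) = -I.Φ x := by
  have h := I.add x (-x)
  rw [add_neg_cancel, I.zero] at h
  exact (neg_eq_of_add_eq_zero_right h.symm).symm

theorem Iso.sub {N N' : TracialVN} (I : Iso N N') (x y : N.Elt) :
    I.Φ (x - y) = I.Φ x - I.Φ y := by
  rw [sub_eq_add_neg, I.add, I.neg, ← sub_eq_add_neg]

theorem Iso.norm2 {N N' : TracialVN} (I : Iso N N') (x : N.Elt) :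
    norm2 N' (I.Φ x) = norm2 N x := by
  unfold VN.norm2
  rw [← I.adj, ← I.mul, I.tr]

theorem Iso.dist2 {N N' : TracialVN} (I : Iso N N') (x y : N.Elt) :
    TracialVN.dist2 (I.Φ x) (I.Φ y) = TracialVN.dist2 x y := by
  rw [dist2_eq, dist2_eq, ← I.sub, I.norm2]

theorem snoc_comp {A B : Type} {n : ℕ} (f : A → B) (x : Fin n → A) (a : A) :
    (fun i => f (snoc x a i)) = snoc (fun i => f (x i)) (f a) := by
  funext i
  unfold snoc
  refine Fin.lastCases ?_ (fun i => ?_) i <;> simp

theorem elim_comp {A B V : Type} {n : ℕ} (f : A → B) (e : V → A) (x : Fin n → A) :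
    (Sum.elim (fun v => f (e v)) (fun i => f (x i)) : V ⊕ Fin n → B) =
      fun w => f (Sum.elim e x w) := by
  funext w
  cases w <;> rfl

/-- The bijection of balls. -/
def Iso.ball {N N' : TracialVN} (I : Iso N N') (r : ℕ+) : N.Ball r ≃ N'.Ball r where
  toFun a := ⟨I.Φ a.1, by rw [norm_eq, I.norm]; exact a.2⟩
  invFun a := ⟨I.Φ.symm a.1, by rw [norm_eq, ← I.norm, Equiv.apply_symm_apply]; exact a.2⟩
  left_inv a := Subtype.ext (I.Φ.symm_apply_apply _)
  right_inv a := Subtype.ext (I.Φ.apply_symm_apply _)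

/-- Isomorphisms preserve the values of formulas. -/
theorem Iso.eval {N N' : TracialVN} (I : Iso N N') {V : Type} {n : ℕ} (φ : Fml V n)
    (e : V → N.Elt) (x : Fin n → N.Elt) :
    φ.eval N' (fun v => I.Φ (e v)) (fun i => I.Φ (x i)) = φ.eval N e x := by
  induction φ with
  | reTr t =>
    simp only [Fml.eval]
    rw [elim_comp, I.val, I.tr]
  | imTr t =>
    simp only [Fml.eval]
    rw [elim_comp, I.val, I.tr]
  | dist s t =>
    simp only [Fml.eval]
    rw [elim_comp, I.val, I.val, I.dist2]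
  | conn k u φ ih =>
    simp only [Fml.eval]
    congr 1
    funext i
    exact ih i x
  | sup r φ ih =>
    simp only [Fml.eval]
    refine ((I.ball r).iSup_congr fun a => ?_).symm
    rw [← ih]
    rw [snoc_comp]
    rfl
  | inf r φ ih =>
    simp only [Fml.eval]
    refine ((I.ball r).iInf_congr fun a => ?_).symm
    rw [← ih]
    rw [snoc_comp]
    rfl

/-! ### The isomorphism of an isomorphism of groups -/

theorem relab_symm_eq {G G' : Type} (e : G ≃ G') : (relab e).symm = relab e.symm := rfl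

theorem norm_conj_le {G G' : Type} (e : G ≃ G') (T : L2 G →L[ℂ] L2 G) :
    ‖(relab e).conjStarAlgEquiv T‖ ≤ ‖T‖ := by
  refine ContinuousLinearMap.opNorm_le_bound _ (norm_nonneg _) fun η => ?_
  rw [LinearIsometryEquiv.conjStarAlgEquiv_apply_apply, LinearIsometryEquiv.norm_map]
  refine (T.le_opNorm _).trans ?_
  rw [LinearIsometryEquiv.norm_map]

theorem norm_conj {G G' : Type} (e : G ≃ G') (T : L2 G →L[ℂ] L2 G) :
    ‖(relab e).conjStarAlgEquiv T‖ = ‖T‖ := by
  refine le_antisymm (norm_conj_le e T) ?_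
  have h := norm_conj_le e.symm ((relab e).conjStarAlgEquiv T)
  have h2 : (relab e.symm).conjStarAlgEquiv ((relab e).conjStarAlgEquiv T) = T := by
    rw [← relab_symm_eq, ← LinearIsometryEquiv.symm_conjStarAlgEquiv,
      StarAlgEquiv.symm_apply_apply]
  rwa [h2] at h

section

variable {G G' : Type} [Group G] [Group G']

theorem relab_rho (θ : G ≃* G') (g : G) (η : L2 G) :
    relab θ.toEquiv (rho g η) = rho (θ g) (relab θ.toEquiv η) := by
  apply ext_coord
  intro h
  rw [relab_apply, rho_apply, rho_apply, relab_apply]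
  have : θ.symm h * g = θ.symm (h * θ g) := by simp
  show η (θ.symm h * g) = η (θ.symm (h * θ g))
  rw [this]

theorem conj_mem (θ : G ≃* G') {T : L2 G →L[ℂ] L2 G} (hT : T ∈ (grpAlg G).toStarSubalgebra) :
    (relab θ.toEquiv).conjStarAlgEquiv T ∈ (grpAlg G').toStarSubalgebra := by
  rw [mem_grpAlg] at hT ⊢
  intro g'
  obtain ⟨g, rfl⟩ := θ.surjective g'
  ext1 η
  obtain ⟨η, rfl⟩ := (relab θ.toEquiv).surjective η
  rw [mul_apply_eq_comp, mul_apply_eq_comp, ← relab_rho,
    LinearIsometryEquiv.conjStarAlgEquiv_apply_apply,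
    LinearIsometryEquiv.conjStarAlgEquiv_apply_apply,
    LinearIsometryEquiv.symm_apply_apply, LinearIsometryEquiv.symm_apply_apply, ← relab_rho]
  have := congrArg (fun S : L2 G →L[ℂ] L2 G => S η) (hT g)
  simp only [mul_apply_eq_comp] at this
  rw [this]

/-- The isomorphism `L(G) → L(G')` of an isomorphism `G → G'` of groups. -/
noncomputable def isoLG (θ : G ≃* G') : Iso (LG G) (LG G') where
  Φ :=
    { toFun := fun T => ⟨(relab θ.toEquiv).conjStarAlgEquiv T.1, conj_mem θ T.2⟩
      invFun := fun T => ⟨(relab θ.symm.toEquiv).conjStarAlgEquiv T.1, conj_mem θ.symm T.2⟩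
      left_inv := fun T => by
        apply Subtype.ext
        exact (relab θ.toEquiv).conjStarAlgEquiv.symm_apply_apply T.1
      right_inv := fun T => by
        apply Subtype.ext
        exact (relab θ.toEquiv).conjStarAlgEquiv.apply_symm_apply T.1 }
  zero := Subtype.ext (map_zero (relab θ.toEquiv).conjStarAlgEquiv)
  one := Subtype.ext (map_one (relab θ.toEquiv).conjStarAlgEquiv)
  add x y := Subtype.ext (map_add (relab θ.toEquiv).conjStarAlgEquiv (op x) (op y))
  mul x y := Subtype.ext (map_mul (relab θ.toEquiv).conjStarAlgEquiv (op x) (op y))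
  adj x := Subtype.ext (map_star (relab θ.toEquiv).conjStarAlgEquiv (op x))
  smul c x := Subtype.ext (map_smul (relab θ.toEquiv).conjStarAlgEquiv c (op x))
  norm x := norm_conj θ.toEquiv x.1
  tr x := by
    show ((relab θ.toEquiv).conjStarAlgEquiv (op x) (dl 1)) 1 = (op x (dl 1)) 1
    rw [LinearIsometryEquiv.conjStarAlgEquiv_apply_apply, relab_symm_eq, relab_dl, relab_apply]
    have h1 : θ.toEquiv.symm 1 = 1 := map_one θ.symm
    rw [h1]

/-- The element `λ_g` of `L(G)`. -/
noncomputable def lm (g : G) : (LG G).Elt := ⟨lam g, lam_mem g⟩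

theorem isoLG_lm (θ : G ≃* G') (g : G) : (isoLG θ).Φ (lm g) = lm (θ g) := by
  apply Subtype.ext
  show (relab θ.toEquiv).conjStarAlgEquiv (lam g) = lam (θ g)
  apply ext_dl
  intro k
  rw [LinearIsometryEquiv.conjStarAlgEquiv_apply_apply, relab_symm_eq, relab_dl, lam_dl,
    relab_dl, lam_dl]
  congr 1
  show θ (g * θ.symm k) = θ g * k
  simp

end

/-! ### The 2-norm of `L(G)` -/

section

variable {G : Type} [Group G]

theorem norm2_LG (x : (LG G).Elt) : norm2 (LG G) x = ‖op x (dl 1)‖ := by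
  unfold norm2
  have h : TracialVN.tr (N := LG G) (star x * x) = ((‖op x (dl 1)‖ ^ 2 : ℝ) : ℂ) :=
    trace_star_mul (op x)
  rw [h, Complex.ofReal_re, Real.sqrt_sq (norm_nonneg _)]

theorem norm2_nonneg (x : (LG G).Elt) : 0 ≤ norm2 (LG G) x := by
  rw [norm2_LG]; exact norm_nonneg _

theorem norm2_le_norm (x : (LG G).Elt) : norm2 (LG G) x ≤ ‖x‖ := by
  rw [norm2_LG]
  refine ((op x).le_opNorm _).trans ?_
  rw [norm_dl, mul_one]
  rfl

theorem norm2_add (x y : (LG G).Elt) :
    norm2 (LG G) (x + y) ≤ norm2 (LG G) x + norm2 (LG G) y := by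
  rw [norm2_LG, norm2_LG, norm2_LG]
  exact norm_add_le _ _

theorem norm2_mul_left (x y : (LG G).Elt) :
    norm2 (LG G) (x * y) ≤ ‖x‖ * norm2 (LG G) y := by
  rw [norm2_LG, norm2_LG]
  exact (op x).le_opNorm _

theorem norm2_star (x : (LG G).Elt) : norm2 (LG G) (star x) = norm2 (LG G) x := by
  unfold norm2
  rw [star_star, tr_eq, tr_eq, tauL_comm]

theorem norm2_mul_right (x y : (LG G).Elt) :
    norm2 (LG G) (x * y) ≤ norm2 (LG G) x * ‖y‖ := by
  rw [← norm2_star, star_mul, ← norm2_star x, mul_comm, ← norm_star y]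
  exact norm2_mul_left _ _

theorem norm2_smul (c : ℂ) (x : (LG G).Elt) :
    norm2 (LG G) (c • x) = ‖c‖ * norm2 (LG G) x := by
  rw [norm2_LG, norm2_LG]
  exact norm_smul c (op x (dl 1))

theorem norm2_neg (x : (LG G).Elt) : norm2 (LG G) (-x) = norm2 (LG G) x := by
  rw [norm2_LG, norm2_LG]
  exact norm_neg _

theorem norm2_zero : norm2 (LG G) 0 = 0 := by
  rw [norm2_LG]
  exact norm_zero

theorem norm2_sub_comm (x y : (LG G).Elt) :
    norm2 (LG G) (x - y) = norm2 (LG G) (y - x) := by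
  rw [← norm2_neg, neg_sub]

theorem abs_norm2_sub (x y : (LG G).Elt) :
    |norm2 (LG G) x - norm2 (LG G) y| ≤ norm2 (LG G) (x - y) := by
  rw [norm2_LG, norm2_LG, norm2_LG]
  exact abs_norm_sub_norm_le _ _

theorem norm_tr_le (x : (LG G).Elt) : ‖tauL (LG G) x‖ ≤ norm2 (LG G) x := by
  rw [norm2_LG]
  exact lp.norm_apply_le_norm (by norm_num) _ _

theorem norm_one_le : ‖(1 : (LG G).Elt)‖ ≤ 1 := by
  show ‖(1 : L2 G →L[ℂ] L2 G)‖ ≤ 1
  exact ContinuousLinearMap.norm_id_le

end

end Pool.Agent.Helper70K1.VN
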