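import Pool.Agent.Helper70K1.VN.Logic

/-!
# The algebraic structure on the elements of a tracial von Neumann algebra
-/

set_option autoImplicit false

namespace Pool.Agent.Helper70K1.VN

open Pool.Agent.Helper70K1.CL

noncomputable instance (N : TracialVN) : NormedRing N.Elt :=
  inferInstanceAs (NormedRing N.alg.toStarSubalgebra)

noncomputable instance (N : TracialVN) : StarRing N.Elt :=
  inferInstanceAs (StarRing N.alg.toStarSubalgebra)

noncomputable instance (N : TracialVN) : NormedAlgebra ℂ N.Elt :=
  inferInstanceAs (NormedAlgebra ℂ N.alg.toStarSubalgebra)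

instance (N : TracialVN) : StarModule ℂ N.Elt :=
  inferInstanceAs (StarModule ℂ N.alg.toStarSubalgebra)

instance (N : TracialVN) : CStarRing N.Elt :=
  inferInstanceAs (CStarRing N.alg.toStarSubalgebra)

section

variable {N : TracialVN}

theorem zero_eq : (TracialVN.zero : N.Elt) = 0 := rfl
theorem one_eq : (TracialVN.one : N.Elt) = 1 := rfl
theorem add_eq (x y : N.Elt) : TracialVN.add x y = x + y := rfl
theorem mul_eq (x y : N.Elt) : TracialVN.mul x y = x * y := rfl
theorem smul_eq (c : ℂ) (x : N.Elt) : TracialVN.smul c x = c • x := rfl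
theorem adj_eq (x : N.Elt) : TracialVN.adj x = star x := rfl
theorem norm_eq (x : N.Elt) : x.1.norm = ‖x‖ := rfl

variable (N) in
/-- The 2-norm. -/
noncomputable def norm2 (x : N.Elt) : ℝ := √ (TracialVN.tr (star x * x)).re

theorem dist2_eq (x y : N.Elt) : TracialVN.dist2 x y = norm2 N (x - y) := by
  have h : x - y = x + (-1 : ℂ) • y := by rw [neg_one_smul, sub_eq_add_neg]
  rw [h]
  rfl

variable (N) in
/-- The trace, as a linear map. -/
noncomputable def tauL : N.Elt →ₗ[ℂ] ℂ where
  toFun := TracialVN.tr
  map_add' x y := N.isTrace.add x.1 y.1 x.2 y.2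
  map_smul' c x := N.isTrace.smul c x.1 x.2

theorem tr_eq (x : N.Elt) : TracialVN.tr x = tauL N x := rfl

theorem tauL_comm (x y : N.Elt) : tauL N (x * y) = tauL N (y * x) :=
  N.isTrace.comm x.1 y.1 x.2 y.2

end

end Pool.Agent.Helper70K1.VN
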