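import Pool.Agent.Helper70K1.VN.Fsupp

/-!
# Finitely supported permutations
-/

set_option autoImplicit false

open scoped ENNReal

namespace Pool.Agent.Helper70K1.VN

/-- The group of the permutations of `X` that move finitely many points only. -/
def FSym (X : Type) : Subgroup (Equiv.Perm X) where
  carrier := {σ | {x | σ x ≠ x}.Finite}
  one_mem' := by simp
  mul_mem' := by
    intro σ τ hσ hτ
    refine (Set.Finite.union hσ hτ).subset fun x hx => ?_
    by_contra h
    simp only [Set.mem_union, Set.mem_ofPred_eq, not_or, not_not] at h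
    exact hx (by rw [Equiv.Perm.mul_apply, h.2, h.1])
  inv_mem' := by
    intro σ hσ
    refine Set.Finite.subset hσ fun x hx => ?_
    intro h
    apply hx
    rw [Equiv.Perm.inv_eq_iff_eq, h]

section

variable {X Y : Type}

theorem finite_supp (σ : FSym X) : {x | σ.1 x ≠ x}.Finite := σ.2

/-- The support of a finitely supported permutation. -/
noncomputable def sup (σ : FSym X) : Finset X := (finite_supp σ).toFinset

theorem mem_sup {σ : FSym X} {x : X} : x ∈ sup σ ↔ σ.1 x ≠ x := by
  unfold sup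
  rw [Set.Finite.mem_toFinset]
  rfl

theorem sup_mul_inv {σ τ : FSym X} {x : X} (h : x ∈ sup (σ * τ⁻¹)) : x ∈ sup σ ∨ x ∈ sup τ := by
  by_contra hcon
  rw [not_or, mem_sup, mem_sup, not_not, not_not] at hcon
  rw [mem_sup] at h
  apply h
  show σ.1 (τ.1⁻¹ x) = x
  have : τ.1⁻¹ x = x := by rw [Equiv.Perm.inv_eq_iff_eq, hcon.2]
  rw [this, hcon.1]

/-- Conjugation by a permutation, as an automorphism of the group of the finitely supported
permutations. -/
def cj (θ : Equiv.Perm X) : FSym X ≃* FSym X where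
  toFun σ := ⟨θ * σ.1 * θ⁻¹, by
    refine (Set.Finite.image θ (finite_supp σ)).subset fun x hx => ?_
    refine ⟨(θ⁻¹ : Equiv.Perm X) x, fun h => hx ?_, θ.apply_symm_apply x⟩
    show θ (σ.1 ((θ⁻¹ : Equiv.Perm X) x)) = x
    rw [h]
    exact θ.apply_symm_apply x⟩
  invFun σ := ⟨θ⁻¹ * σ.1 * θ, by
    refine (Set.Finite.image (θ⁻¹ : Equiv.Perm X) (finite_supp σ)).subset fun x hx => ?_
    refine ⟨θ x, fun h => hx ?_, θ.symm_apply_apply x⟩
    show (θ⁻¹ : Equiv.Perm X) (σ.1 (θ x)) = x
    rw [h]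
    exact θ.symm_apply_apply x⟩
  left_inv σ := by
    apply Subtype.ext
    show θ⁻¹ * (θ * σ.1 * θ⁻¹) * θ = σ.1
    group
  right_inv σ := by
    apply Subtype.ext
    show θ * (θ⁻¹ * σ.1 * θ) * θ⁻¹ = σ.1
    group
  map_mul' σ τ := by
    apply Subtype.ext
    show θ * (σ.1 * τ.1) * θ⁻¹ = (θ * σ.1 * θ⁻¹) * (θ * τ.1 * θ⁻¹)
    group

theorem cj_apply (θ : Equiv.Perm X) (σ : FSym X) : (cj θ σ).1 = θ * σ.1 * θ⁻¹ := rfl

theorem mem_sup_cj {θ : Equiv.Perm X} {σ : FSym X} {x : X} :
    θ x ∈ sup (cj θ σ) ↔ x ∈ sup σ := by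
  rw [mem_sup, mem_sup, cj_apply]
  simp [Equiv.Perm.mul_apply]

theorem cj_eq_self {θ : Equiv.Perm X} {σ : FSym X} (h : ∀ x ∈ sup σ, θ x = x) :
    cj θ σ = σ := by
  apply Subtype.ext
  rw [cj_apply]
  ext x
  simp only [Equiv.Perm.mul_apply]
  obtain ⟨y, rfl⟩ := θ.surjective x
  have h0 : (θ⁻¹ : Equiv.Perm X) (θ y) = y := θ.symm_apply_apply y
  rw [h0]
  by_cases hy : y ∈ sup σ
  · rw [h y hy]
    have : σ.1 y ∈ sup σ := by
      rw [mem_sup] at hy ⊢
      exact fun h' => hy (σ.1.injective h')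
    rw [h _ this]
  · rw [mem_sup, not_not] at hy
    rw [hy]
    by_contra hne
    have hθ : θ y ∈ sup σ := mem_sup.2 (fun h' => hne h'.symm)
    have h2 := h _ hθ
    have h3 : θ y = y := θ.injective h2
    rw [h3, hy] at hne
    exact hne rfl

/-- The homomorphism of an injection of sets. -/
noncomputable def em (j : X ↪ Y) : FSym X →* FSym Y where
  toFun σ := ⟨σ.1.viaEmbedding j, by
    refine (Set.Finite.image j σ.2).subset fun y hy => ?_
    by_cases hr : y ∈ Set.range j
    · obtain ⟨x, rfl⟩ := hr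
      refine ⟨x, fun h => hy ?_, rfl⟩
      rw [Equiv.Perm.viaEmbedding_apply, h]
    · exact absurd (Equiv.Perm.viaEmbedding_apply_of_notMem _ j y hr) hy⟩
  map_one' := Subtype.ext (map_one (Equiv.Perm.viaEmbeddingHom j))
  map_mul' σ τ := Subtype.ext (map_mul (Equiv.Perm.viaEmbeddingHom j) σ.1 τ.1)

theorem em_injective (j : X ↪ Y) : Function.Injective (em j) := by
  intro σ τ h
  apply Subtype.ext
  exact Equiv.Perm.viaEmbeddingHom_injective j (congrArg Subtype.val h)

theorem sup_em {j : X ↪ Y} {σ : FSym X} {y : Y} (h : y ∈ sup (em j σ)) : y ∈ Set.range j := by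
  by_contra hr
  rw [mem_sup] at h
  exact h (Equiv.Perm.viaEmbedding_apply_of_notMem _ j y hr)

theorem exists_em {j : X ↪ Y} {σ : FSym Y} (h : ∀ y ∈ sup σ, y ∈ Set.range j) :
    ∃ τ : FSym X, em j τ = σ := by
  have h0 : ∀ y, σ.1 y ∈ Set.range j ↔ y ∈ Set.range j := by
    intro y
    by_cases hy : σ.1 y = y
    · rw [hy]
    · have h1 : y ∈ sup σ := mem_sup.2 hy
      have h2 : σ.1 y ∈ sup σ := mem_sup.2 fun h' => hy (σ.1.injective h')
      exact ⟨fun _ => h _ h1, fun _ => h _ h2⟩
  let e := Equiv.ofInjective j j.injective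
  let τ : Equiv.Perm X := (e.trans (σ.1.subtypePerm h0)).trans e.symm
  have hτ : ∀ x, j (τ x) = σ.1 (j x) := by
    intro x
    show j (e.symm ((σ.1.subtypePerm h0) (e x))) = _
    rw [Equiv.apply_ofInjective_symm j.injective]
    rfl
  have hτf : τ ∈ FSym X := by
    refine Set.Finite.subset (Set.Finite.preimage j.injective.injOn σ.2) fun x hx => ?_
    intro h'
    apply hx
    apply j.injective
    rw [hτ, h']
  refine ⟨⟨τ, hτf⟩, ?_⟩
  apply Subtype.ext
  ext y
  by_cases hr : y ∈ Set.range j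
  · obtain ⟨x, rfl⟩ := hr
    show τ.viaEmbedding j (j x) = _
    rw [Equiv.Perm.viaEmbedding_apply, hτ]
  · show τ.viaEmbedding j y = _
    rw [Equiv.Perm.viaEmbedding_apply_of_notMem _ j y hr]
    by_contra hne
    exact hr (h y (mem_sup.2 fun h' => hne h'.symm))

/-- A finite set `S` can be moved into an infinite set `Z` by a permutation fixing the points of a
finite set `F`. -/
theorem exists_perm (F : Finset X) {Z : Set X} (hZ : Z.Infinite) (S : Finset X) :
    ∃ θ : Equiv.Perm X, (∀ x ∈ F, θ x = x) ∧ ∀ x ∈ S, x ∉ F → θ x ∈ Z := by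
  classical
  induction S using Finset.induction_on with
  | empty => exact ⟨1, fun _ _ => rfl, by simp⟩
  | insert s S hs ih =>
    obtain ⟨θ, h1, h2⟩ := ih
    by_cases hsF : s ∈ F
    · refine ⟨θ, h1, fun x hx hxF => ?_⟩
      rcases Finset.mem_insert.1 hx with rfl | hx
      · exact absurd hsF hxF
      · exact h2 x hx hxF
    obtain ⟨z, hz, hz2⟩ := hZ.exists_notMem_finset (F ∪ S.image θ)
    rw [Finset.mem_union, not_or] at hz2
    refine ⟨Equiv.swap (θ s) z * θ, fun x hx => ?_, fun x hx hxF => ?_⟩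
    · rw [Equiv.Perm.mul_apply, h1 x hx]
      refine Equiv.swap_apply_of_ne_of_ne ?_ ?_
      · intro h'
        have h3 : θ x = θ s := by rw [h1 x hx]; exact h'
        exact hsF (θ.injective h3 ▸ hx)
      · rintro rfl
        exact hz2.1 hx
    · rcases Finset.mem_insert.1 hx with rfl | hx
      · rw [Equiv.Perm.mul_apply, Equiv.swap_apply_left]
        exact hz
      · rw [Equiv.Perm.mul_apply, Equiv.swap_apply_of_ne_of_ne]
        · exact h2 x hx hxF
        · intro h'
          exact hs (θ.injective h' ▸ hx)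
        · intro h'
          exact hz2.2 (Finset.mem_image.2 ⟨x, hx, h'⟩)

/-- The finite set of the permutations with support in `F`. -/
theorem finite_sup_subset (F : Finset X) : {σ : FSym X | ∀ x ∈ sup σ, x ∈ F}.Finite := by
  classical
  have h : Set.InjOn (fun (σ : FSym X) (x : F) => if h : σ.1 x.1 ∈ F then (⟨σ.1 x.1, h⟩ : F) else x)
      {σ : FSym X | ∀ x ∈ sup σ, x ∈ F} := by
    intro σ hσ τ hτ h
    have key : ∀ ρ : FSym X, (∀ x ∈ sup ρ, x ∈ F) → ∀ x ∈ F, ρ.1 x ∈ F := by
      intro ρ hρ x hx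
      by_cases hx' : ρ.1 x = x
      · rw [hx']; exact hx
      · exact hρ _ (mem_sup.2 fun h' => hx' (ρ.1.injective h'))
    apply Subtype.ext
    ext x
    by_cases hx : x ∈ F
    · have h1 := congrFun h ⟨x, hx⟩
      simp only [key σ hσ x hx, key τ hτ x hx, dif_pos] at h1
      exact congrArg Subtype.val h1
    · have h1 : σ.1 x = x := by
        by_contra hne
        exact hx (hσ x (mem_sup.2 hne))
      have h2 : τ.1 x = x := by
        by_contra hne
        exact hx (hτ x (mem_sup.2 hne))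
      rw [h1, h2]
  exact Set.Finite.of_injOn (Set.mapsTo_univ _ _) h Set.finite_univ

/-- The permutations with support in `F`. -/
noncomputable def GF (F : Finset X) : Finset (FSym X) := (finite_sup_subset F).toFinset

theorem mem_GF {F : Finset X} {σ : FSym X} : σ ∈ GF F ↔ ∀ x ∈ sup σ, x ∈ F := by
  unfold GF
  rw [Set.Finite.mem_toFinset]
  rfl

/-- The union of the supports of finitely many permutations. -/
noncomputable def usup (s : Finset (FSym X)) : Finset X :=
  open Classical in s.biUnion sup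

theorem mem_usup {s : Finset (FSym X)} {x : X} : x ∈ usup s ↔ ∃ σ ∈ s, x ∈ sup σ := by
  classical
  unfold usup
  rw [Finset.mem_biUnion]

end

end Pool.Agent.Helper70K1.VN
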