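import Pool.Agent.Helper70K1.VN.Bd

/-!
# Finitely supported elements of `L(G)`
-/

set_option autoImplicit false

open scoped ENNReal

namespace Pool.Agent.Helper70K1.VN

open Pool.Agent.Helper70K1.CL

theorem sq_norm_eq {G : Type} (η : L2 G) : ‖η‖ ^ 2 = ∑' g, ‖η g‖ ^ 2 := by
  have h := lp.norm_rpow_eq_tsum two_pos' η
  have h2 : (2 : ℝ≥0∞).toReal = ((2 : ℕ) : ℝ) := by norm_num
  rw [h2] at h
  simpa only [Real.rpow_natCast] using h

theorem summable_sq {G : Type} (η : L2 G) : Summable fun g => ‖η g‖ ^ 2 := by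
  have h := (memℓp_gen_iff two_pos').1 (lp.memℓp η)
  have h2 : (2 : ℝ≥0∞).toReal = ((2 : ℕ) : ℝ) := by norm_num
  rw [h2] at h
  simpa only [Real.rpow_natCast] using h

theorem memℓp_of_summable_sq {G : Type} {η : G → ℂ} (h : Summable fun g => ‖η g‖ ^ 2) :
    Memℓp η 2 := by
  rw [memℓp_gen_iff two_pos']
  have h2 : (2 : ℝ≥0∞).toReal = ((2 : ℕ) : ℝ) := by norm_num
  rw [h2]
  simpa only [Real.rpow_natCast] using h

theorem summable_finsupp {G : Type} (η : G →₀ ℂ) : Summable fun g => ‖η g‖ ^ 2 := by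
  refine summable_of_ne_finset_zero (s := η.support) fun g hg => ?_
  rw [Finsupp.notMem_support_iff.1 hg]
  simp

/-- The vector of a finitely supported function. -/
noncomputable def vec {G : Type} (η : G →₀ ℂ) : L2 G :=
  ⟨fun g => η g, memℓp_of_summable_sq (summable_finsupp η)⟩

theorem vec_apply {G : Type} (η : G →₀ ℂ) (g : G) : (vec η) g = η g := rfl

theorem sq_norm_vec {G : Type} (η : G →₀ ℂ) : ‖vec η‖ ^ 2 = η.sum fun _ z => ‖z‖ ^ 2 := by
  rw [sq_norm_eq, tsum_eq_sum (s := η.support)]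
  · rfl
  · intro g hg
    rw [vec_apply, Finsupp.notMem_support_iff.1 hg]
    simp

theorem norm_vec_map {K G : Type} {j : K → G} (hj : Function.Injective j) (η : K →₀ ℂ) :
    ‖vec (η.mapDomain j)‖ = ‖vec η‖ := by
  have h : ‖vec (η.mapDomain j)‖ ^ 2 = ‖vec η‖ ^ 2 := by
    rw [sq_norm_vec, sq_norm_vec, Finsupp.sum_mapDomain_index_inj hj]
  exact (sq_eq_sq₀ (norm_nonneg _) (norm_nonneg _)).1 h

theorem coe_sum {G : Type} {ι : Type} (s : Finset ι) (F : ι → L2 G) (g : G) :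
    ((∑ i ∈ s, F i : L2 G)) g = ∑ i ∈ s, (F i) g := by
  rw [lp.coeFn_sum]
  exact Finset.sum_apply _ _ _

theorem vec_eq_sum {G : Type} (η : G →₀ ℂ) : vec η = ∑ h ∈ η.support, η h • dl h := by
  apply ext_coord
  intro g
  rw [coe_sum, vec_apply]
  classical
  have h1 : ∀ h ∈ η.support, ((η h • dl h : L2 G)) g = if g = h then η h else 0 := by
    intro h _
    rw [lp.coeFn_smul, Pi.smul_apply, dl_apply]
    split_ifs <;> simp
  rw [Finset.sum_congr rfl h1, Finset.sum_ite_eq]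
  split_ifs with hg
  · rfl
  · exact Finsupp.notMem_support_iff.1 hg

/-- Restriction of a function to a finite set. -/
noncomputable def trunc {G : Type} (η : G → ℂ) (s : Finset G) : G →₀ ℂ :=
  Finsupp.indicator s fun g _ => η g

open Classical in
theorem trunc_apply {G : Type} (η : G → ℂ) (s : Finset G) (g : G) :
    trunc η s g = if g ∈ s then η g else 0 := by
  unfold trunc
  rw [Finsupp.indicator_apply]
  split_ifs <;> rfl

open Filter in
theorem tendsto_trunc {G : Type} (η : L2 G) :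
    Tendsto (fun s : Finset G => vec (trunc η s)) atTop (nhds η) := by
  classical
  have h := lp.hasSum_single (p := 2) (by norm_num) η
  refine Tendsto.congr (fun s => ?_) h
  apply ext_coord
  intro g
  rw [coe_sum, vec_apply, trunc_apply]
  have h1 : ∀ i ∈ s, (lp.single 2 i (η i) : L2 G) g = if g = i then η i else 0 := by
    intro i _
    rw [lp.single_apply, Pi.single_apply]
  rw [Finset.sum_congr rfl h1, Finset.sum_ite_eq]

theorem norm_trunc_le {G : Type} (η : L2 G) (s : Finset G) : ‖vec (trunc η s)‖ ≤ ‖η‖ := by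
  have h : ‖vec (trunc η s)‖ ^ 2 ≤ ‖η‖ ^ 2 := by
    rw [sq_norm_eq, sq_norm_eq]
    refine (summable_sq _).tsum_le_tsum (fun g => ?_) (summable_sq _)
    classical
    rw [vec_apply, trunc_apply]
    split_ifs
    · exact le_refl _
    · simp
  exact (sq_le_sq₀ (norm_nonneg _) (norm_nonneg _)).1 h

/-- An operator on `ℓ²(G)` is bounded by `C` if it is on finitely supported vectors. -/
theorem opNorm_le_of_vec {G : Type} (T : L2 G →L[ℂ] L2 G) {C : ℝ} (hC : 0 ≤ C)
    (h : ∀ ζ η : G →₀ ℂ, ‖inner ℂ (vec ζ) (T (vec η))‖ ≤ C * ‖vec ζ‖ * ‖vec η‖) : ‖T‖ ≤ C := by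
  have h1 : ∀ ζ η : L2 G, ‖inner ℂ ζ (T η)‖ ≤ C * ‖ζ‖ * ‖η‖ := by
    intro ζ η
    have hζ := tendsto_trunc ζ
    have hη := tendsto_trunc η
    have hT : Filter.Tendsto (fun s : Finset G => T (vec (trunc η s))) Filter.atTop
        (nhds (T η)) := (T.continuous.tendsto η).comp hη
    refine le_of_tendsto (hζ.inner hT).norm (Filter.Eventually.of_forall fun s => ?_)
    refine (h _ _).trans ?_
    gcongr
    · exact norm_trunc_le _ _
    · exact norm_trunc_le _ _
  refine T.opNorm_le_bound hC fun η => ?_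
  have h2 := h1 (T η) η
  rw [inner_self_eq_norm_sq_to_K] at h2
  have h3 : ‖T η‖ ^ 2 ≤ C * ‖T η‖ * ‖η‖ := by
    simpa using h2
  by_cases h0 : ‖T η‖ = 0
  · rw [h0]; positivity
  · have h4 : 0 < ‖T η‖ := lt_of_le_of_ne (norm_nonneg _) (Ne.symm h0)
    have h5 : ‖T η‖ * ‖T η‖ ≤ ‖T η‖ * (C * ‖η‖) := by nlinarith
    exact le_of_mul_le_mul_left h5 h4

section

variable {G : Type} [Group G]

/-- The coefficient function of an element of `L(G)`. -/
noncomputable def coef (T : (LG G).Elt) (g : G) : ℂ := (op T (dl 1)) g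

/-- The sesquilinear form of a function on `G`. -/
noncomputable def Bf (ζ η : G →₀ ℂ) (f : G → ℂ) : ℂ :=
  ζ.sum fun g z => η.sum fun h w => (starRingEnd ℂ) z * (f (g * h⁻¹) * w)

theorem inner_vec (T : (LG G).Elt) (ζ η : G →₀ ℂ) :
    inner ℂ (vec ζ) (op T (vec η)) = Bf ζ η (coef T) := by
  unfold Bf
  rw [vec_eq_sum ζ, sum_inner, Finsupp.sum]
  refine Finset.sum_congr rfl fun g _ => ?_
  rw [inner_smul_left, inner_dl_left, vec_eq_sum η, map_sum, coe_sum, Finset.mul_sum,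
    Finsupp.sum]
  refine Finset.sum_congr rfl fun h _ => ?_
  rw [map_smul, lp.coeFn_smul, Pi.smul_apply, coord_eq (op_mem T) g h, smul_eq_mul, mul_comm (η h)]
  rfl

theorem norm_Bf_le (T : (LG G).Elt) (ζ η : G →₀ ℂ) :
    ‖Bf ζ η (coef T)‖ ≤ ‖T‖ * ‖vec ζ‖ * ‖vec η‖ := by
  rw [← inner_vec]
  refine (norm_inner_le_norm _ _).trans ?_
  have h : ‖op T (vec η)‖ ≤ ‖T‖ * ‖vec η‖ :=
    ContinuousLinearMap.le_opNorm _ _
  calc ‖vec ζ‖ * ‖op T (vec η)‖ ≤ ‖vec ζ‖ * (‖T‖ * ‖vec η‖) := by gcongr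
    _ = ‖T‖ * ‖vec ζ‖ * ‖vec η‖ := by ring

theorem norm_le_of_Bf (T : (LG G).Elt) {C : ℝ} (hC : 0 ≤ C)
    (h : ∀ ζ η : G →₀ ℂ, ‖Bf ζ η (coef T)‖ ≤ C * ‖vec ζ‖ * ‖vec η‖) : ‖T‖ ≤ C := by
  refine opNorm_le_of_vec (op T) hC fun ζ η => ?_
  rw [inner_vec]
  exact h ζ η

theorem Bf_map {K : Type} [Group K] {j : K →* G} (hj : Function.Injective j) (ζ η : K →₀ ℂ)
    (f : G → ℂ) : Bf (ζ.mapDomain j) (η.mapDomain j) f = Bf ζ η (fun k => f (j k)) := by
  unfold Bf
  rw [Finsupp.sum_mapDomain_index_inj hj]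
  refine Finset.sum_congr rfl fun g _ => ?_
  show ((η.mapDomain j).sum fun h w => (starRingEnd ℂ) (ζ g) * (f (j g * h⁻¹) * w)) =
    η.sum fun h w => (starRingEnd ℂ) (ζ g) * (f (j (g * h⁻¹)) * w)
  rw [Finsupp.sum_mapDomain_index_inj hj]
  refine Finset.sum_congr rfl fun h _ => ?_
  show (starRingEnd ℂ) (ζ g) * (f (j g * (j h)⁻¹) * η h) =
    (starRingEnd ℂ) (ζ g) * (f (j (g * h⁻¹)) * η h)
  rw [map_mul, map_inv]

/-- The finitely supported element `∑ c_g λ_g`. -/
noncomputable def fs (c : G →₀ ℂ) : (LG G).Elt := c.sum fun g z => z • lm g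

theorem op_sum (s : Finset G) (F : G → (LG G).Elt) :
    op (∑ g ∈ s, F g) = ∑ g ∈ s, op (F g) := by
  classical
  induction s using Finset.induction_on with
  | empty => rfl
  | insert a s ha ih =>
    rw [Finset.sum_insert ha, Finset.sum_insert ha, ← ih]
    rfl

theorem fs_coe (c : G →₀ ℂ) :
    op (fs c) = ∑ g ∈ c.support, c g • lam g := by
  unfold fs Finsupp.sum
  exact op_sum _ _

theorem coef_fs (c : G →₀ ℂ) (g : G) : coef (fs c) g = c g := by
  unfold coef
  rw [fs_coe, sum_apply]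
  have : ∀ i ∈ c.support, (c i • lam i : L2 G →L[ℂ] L2 G) (dl 1) = c i • dl i := by
    intro i _
    show c i • (lam i (dl 1)) = _
    rw [lam_dl, mul_one]
  rw [Finset.sum_congr rfl this, ← vec_eq_sum]
  rfl

theorem ext_coef {S T : (LG G).Elt} (h : ∀ g, coef S g = coef T g) : S = T := by
  apply Subtype.ext
  exact ext_one (op_mem S) (op_mem T) (ext_coord h)

theorem norm2_sq (T : (LG G).Elt) : norm2 (LG G) T ^ 2 = ∑' g, ‖coef T g‖ ^ 2 := by
  rw [norm2_LG]
  exact sq_norm_eq _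

theorem summable_coef (T : (LG G).Elt) : Summable fun g => ‖coef T g‖ ^ 2 :=
  summable_sq ((op T) (dl 1))

theorem coef_sub (S T : (LG G).Elt) (g : G) : coef (S - T) g = coef S g - coef T g := rfl

theorem lm_eq_fs (g : G) : lm g = fs (Finsupp.single g 1) := by
  unfold fs
  rw [Finsupp.sum_single_index]
  · rw [one_smul]
  · rw [zero_smul]

theorem isoLG_fs {G' : Type} [Group G'] (θ : G ≃* G') (c : G →₀ ℂ) :
    (isoLG θ).Φ (fs c) = fs (c.mapDomain θ) := by
  apply ext_coef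
  intro g'
  obtain ⟨g, rfl⟩ := θ.surjective g'
  rw [coef_fs, Finsupp.mapDomain_apply θ.injective]
  rw [← coef_fs c g]
  unfold coef
  show (((relab θ.toEquiv).conjStarAlgEquiv (op (fs c))) (dl 1)) (θ g) = _
  rw [LinearIsometryEquiv.conjStarAlgEquiv_apply_apply, relab_apply, relab_symm_eq, relab_dl]
  have h1 : θ.toEquiv.symm 1 = 1 := map_one θ.symm
  have h2 : θ.toEquiv.symm (θ g) = g := θ.symm_apply_apply g
  rw [h1, h2]

end

end Pool.Agent.Helper70K1.VN
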