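import Pool.Agent.Helper70K1.VN.Defs

/-!
# Group von Neumann algebras
-/

set_option autoImplicit false

open scoped ENNReal

namespace Pool.Agent.Helper70K1.VN

open Pool.Agent.Helper70K1.CL

/-- The Hilbert space `ℓ²(G)`. -/
abbrev L2 (G : Type) : Type := lp (fun _ : G => ℂ) 2

theorem two_pos' : 0 < (2 : ℝ≥0∞).toReal := by norm_num

theorem mem_relab {G G' : Type} (e : G ≃ G') (η : L2 G) :
    Memℓp (fun g' : G' => η (e.symm g')) 2 := by
  rw [memℓp_gen_iff two_pos']
  have h := (memℓp_gen_iff two_pos').1 (lp.memℓp η)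
  exact (e.symm.summable_iff (f := fun g => ‖η g‖ ^ (2 : ℝ≥0∞).toReal)).2 h

/-- The unitary `ℓ²(G) → ℓ²(G')` of a bijection `e`; it maps `δ_g` to `δ_{e g}`. -/
noncomputable def relab {G G' : Type} (e : G ≃ G') : L2 G ≃ₗᵢ[ℂ] L2 G' where
  toFun η := ⟨fun g' => η (e.symm g'), mem_relab e η⟩
  invFun η := ⟨fun g => η (e g), mem_relab e.symm η⟩
  left_inv η := by
    apply lp.ext
    funext g
    show η (e.symm (e g)) = η g
    simp
  right_inv η := by
    apply lp.ext
    funext g
    show η (e (e.symm g)) = η g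
    simp
  map_add' η ζ := by
    apply lp.ext
    funext g
    rfl
  map_smul' c η := by
    apply lp.ext
    funext g
    rfl
  norm_map' η := by
    rw [lp.norm_eq_tsum_rpow two_pos', lp.norm_eq_tsum_rpow two_pos']
    congr 1
    exact (e.symm.tsum_eq (fun g => ‖η g‖ ^ (2 : ℝ≥0∞).toReal))

theorem relab_apply {G G' : Type} (e : G ≃ G') (η : L2 G) (g' : G') :
    (relab e η) g' = η (e.symm g') := rfl

open Classical in
/-- The basis vector `δ_g`. -/
noncomputable def dl {G : Type} (g : G) : L2 G := lp.single 2 g (1 : ℂ)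

theorem dl_apply {G : Type} (g h : G) [Decidable (h = g)] : (dl g) h = if h = g then 1 else 0 := by
  classical
  unfold dl
  rw [lp.single_apply, Pi.single_apply]
  split_ifs <;> rfl

theorem dl_self {G : Type} (g : G) : (dl g) g = 1 := by
  classical rw [dl_apply, if_pos rfl]

theorem dl_ne {G : Type} {g h : G} (hgh : h ≠ g) : (dl g) h = 0 := by
  classical rw [dl_apply, if_neg hgh]

theorem inner_dl_left {G : Type} (g : G) (η : L2 G) : inner ℂ (dl g) η = η g := by
  classical
  unfold dl
  rw [lp.inner_single_left]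
  simp

theorem inner_dl_right {G : Type} (g : G) (η : L2 G) :
    inner ℂ η (dl g) = (starRingEnd ℂ) (η g) := by
  rw [← inner_conj_symm, inner_dl_left]

theorem norm_dl {G : Type} (g : G) : ‖(dl g : L2 G)‖ = 1 := by
  classical
  unfold dl
  rw [lp.norm_single (by norm_num)]
  simp

theorem relab_dl {G G' : Type} (e : G ≃ G') (g : G) : relab e (dl g) = dl (e g) := by
  apply lp.ext
  funext h
  classical
  rw [relab_apply, dl_apply, dl_apply]
  simp [Equiv.symm_apply_eq]

theorem ext_coord {G : Type} {η ζ : L2 G} (h : ∀ g, η g = ζ g) : η = ζ :=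
  lp.ext (funext h)

/-- Operators on `ℓ²(G)` that agree on the `δ_g` are equal. -/
theorem ext_dl {G G' : Type} {S T : L2 G →L[ℂ] L2 G'} (h : ∀ g, S (dl g) = T (dl g)) :
    S = T := by
  classical
  apply lp.ext_continuousLinearMap (p := 2) (by norm_num)
  intro g
  ext x
  have := congrArg (fun v : L2 G' => v x) (h g)
  unfold dl at this
  simpa using this

theorem star_apply_coord {G : Type} (T : L2 G →L[ℂ] L2 G) (g h : G) :
    ((star T) (dl h)) g = (starRingEnd ℂ) ((T (dl g)) h) := by
  rw [← inner_dl_left, ContinuousLinearMap.star_eq_adjoint,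
    ContinuousLinearMap.adjoint_inner_right, inner_dl_right]

theorem inner_tsum {G : Type} (η ζ : L2 G) : inner ℂ η ζ = ∑' g, (starRingEnd ℂ) (η g) * ζ g := by
  rw [lp.inner_eq_tsum]
  congr 1
  funext g
  simp [mul_comm]

section Group

variable {G : Type} [Group G]

/-- Left translation `λ_g`: `(λ_g η)(h) = η(g⁻¹ h)`. -/
noncomputable def lam (g : G) : L2 G →L[ℂ] L2 G :=
  ((relab (Equiv.mulLeft g)).toContinuousLinearEquiv : L2 G →L[ℂ] L2 G)

/-- Right translation `ρ_g`: `(ρ_g η)(h) = η(h g)`. -/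
noncomputable def rho (g : G) : L2 G →L[ℂ] L2 G :=
  ((relab (Equiv.mulRight g⁻¹)).toContinuousLinearEquiv : L2 G →L[ℂ] L2 G)

theorem lam_apply (g : G) (η : L2 G) (h : G) : (lam g η) h = η (g⁻¹ * h) := rfl

theorem rho_apply (g : G) (η : L2 G) (h : G) : (rho g η) h = η (h * g) := by
  show η (h * (g⁻¹)⁻¹) = _
  rw [inv_inv]

theorem lam_dl (g h : G) : lam g (dl h) = dl (g * h) := relab_dl _ _

theorem rho_dl (g h : G) : rho g (dl h) = dl (h * g⁻¹) := relab_dl _ _

theorem lam_mul (g h : G) : lam g * lam h = lam (g * h) := by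
  apply ext_dl
  intro k
  rw [mul_apply_eq_comp, lam_dl, lam_dl, lam_dl, mul_assoc]

theorem lam_one : lam (1 : G) = 1 := by
  apply ext_dl
  intro k
  rw [lam_dl, one_mul, one_apply_eq_self]

theorem star_lam (g : G) : star (lam g) = lam g⁻¹ := by
  apply ext_dl
  intro k
  apply ext_coord
  intro h
  classical
  rw [star_apply_coord, lam_dl, lam_dl, dl_apply, dl_apply]
  by_cases hk : k = g * h
  · subst hk; simp
  · have : h ≠ g⁻¹ * k := by
      rintro rfl
      simp at hk
    simp [hk, this]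

theorem star_rho (g : G) : star (rho g) = rho g⁻¹ := by
  apply ext_dl
  intro k
  apply ext_coord
  intro h
  classical
  rw [star_apply_coord, rho_dl, rho_dl, dl_apply, dl_apply]
  by_cases hk : k = h * g⁻¹
  · subst hk; simp
  · have : h ≠ k * g⁻¹⁻¹ := by
      rintro rfl
      simp at hk
    rw [if_neg hk, if_neg this, map_zero]

theorem lam_rho_comm (g h : G) : rho h * lam g = lam g * rho h := by
  apply ext_dl
  intro k
  simp only [mul_apply_eq_comp, lam_dl, rho_dl, mul_assoc]

variable (G) in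
/-- The group von Neumann algebra `L(G)`: the operators on `ℓ²(G)` that commute with all right
translations. -/
noncomputable def grpAlg : VonNeumannAlgebra (L2 G) where
  toStarSubalgebra := StarSubalgebra.centralizer ℂ (Set.range (rho : G → _))
  centralizer_centralizer' := by
    show Set.centralizer (Set.centralizer
      (StarSubalgebra.centralizer ℂ (Set.range (rho : G → _)) : Set (L2 G →L[ℂ] L2 G))) =
      (StarSubalgebra.centralizer ℂ (Set.range (rho : G → _)) : Set (L2 G →L[ℂ] L2 G))
    rw [StarSubalgebra.coe_centralizer, Set.centralizer_centralizer_centralizer]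

theorem mem_grpAlg {T : L2 G →L[ℂ] L2 G} :
    T ∈ (grpAlg G).toStarSubalgebra ↔ ∀ g : G, rho g * T = T * rho g := by
  show T ∈ StarSubalgebra.centralizer ℂ (Set.range (rho : G → _)) ↔ _
  rw [StarSubalgebra.mem_centralizer_iff]
  constructor
  · intro h g
    exact (h _ ⟨g, rfl⟩).1
  · rintro h _ ⟨g, rfl⟩
    refine ⟨h g, ?_⟩
    rw [star_rho]
    exact h _

theorem lam_mem (g : G) : lam g ∈ (grpAlg G).toStarSubalgebra :=
  mem_grpAlg.2 fun h => lam_rho_comm g h

/-- The coefficients of an element of `L(G)`. -/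
theorem coord_eq {T : L2 G →L[ℂ] L2 G} (hT : T ∈ (grpAlg G).toStarSubalgebra) (g h : G) :
    (T (dl h)) g = (T (dl 1)) (g * h⁻¹) := by
  have h1 : (dl h : L2 G) = rho h⁻¹ (dl 1) := by rw [rho_dl]; simp
  have h2 : T (rho h⁻¹ (dl 1)) = rho h⁻¹ (T (dl 1)) := by
    have := mem_grpAlg.1 hT h⁻¹
    exact (congrArg (fun S : L2 G →L[ℂ] L2 G => S (dl 1)) this).symm
  rw [h1, h2, rho_apply]

/-- Elements of `L(G)` with the same value at `δ_1` are equal. -/
theorem ext_one {S T : L2 G →L[ℂ] L2 G} (hS : S ∈ (grpAlg G).toStarSubalgebra)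
    (hT : T ∈ (grpAlg G).toStarSubalgebra) (h : S (dl 1) = T (dl 1)) : S = T := by
  apply ext_dl
  intro k
  apply ext_coord
  intro g
  rw [coord_eq hS, coord_eq hT, h]

/-- The trace of a product. -/
theorem trace_mul {S T : L2 G →L[ℂ] L2 G} (hS : S ∈ (grpAlg G).toStarSubalgebra) :
    ((S * T) (dl 1)) 1 = ∑' g, (S (dl 1)) g⁻¹ * (T (dl 1)) g := by
  have h1 : ((S * T) (dl 1)) 1 = inner ℂ ((star S) (dl 1)) (T (dl 1)) := by
    rw [← inner_dl_left, ContinuousLinearMap.star_eq_adjoint,
      ContinuousLinearMap.adjoint_inner_left]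
    rfl
  rw [h1, inner_tsum]
  congr 1
  funext g
  rw [star_apply_coord, coord_eq hS 1 g]
  simp

theorem trace_comm {S T : L2 G →L[ℂ] L2 G} (hS : S ∈ (grpAlg G).toStarSubalgebra)
    (hT : T ∈ (grpAlg G).toStarSubalgebra) :
    ((S * T) (dl 1)) 1 = ((T * S) (dl 1)) 1 := by
  rw [trace_mul hS, trace_mul hT, ← (Equiv.inv G).tsum_eq]
  congr 1
  funext g
  simp [mul_comm]

theorem trace_star_mul (T : L2 G →L[ℂ] L2 G) :
    ((star T * T) (dl 1)) 1 = ((‖T (dl 1)‖ ^ 2 : ℝ) : ℂ) := by
  rw [← inner_dl_left, mul_apply_eq_comp, ContinuousLinearMap.star_eq_adjoint,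
    ContinuousLinearMap.adjoint_inner_right, inner_self_eq_norm_sq_to_K]
  simp

/-- A `BH` element as a continuous linear map. -/
def toOp {H : Type} [NormedAddCommGroup H] [InnerProductSpace ℂ H] (x : BH H) : H →L[ℂ] H := x

variable (G) in
/-- The canonical trace `τ(x) = ⟨δ_1, x δ_1⟩`. -/
noncomputable def trG (x : BH (L2 G)) : ℂ := (toOp x (dl 1)) 1

theorem _root_.HasSum.congr_fun' {f g : ℕ → ℂ} {a : ℂ} (h : HasSum f a) (hfg : ∀ n, g n = f n) :
    HasSum g a := by
  have : g = f := funext hfg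
  rw [this]; exact h

theorem isTrace_grpAlg : IsTrace (grpAlg G) (trG G) where
  add x y _ _ := rfl
  smul c x _ := rfl
  one := dl_self 1
  comm x y hx hy := trace_comm hx hy
  nonneg x _ := ⟨‖toOp x (dl 1)‖ ^ 2, by positivity, trace_star_mul (toOp x)⟩
  faithful x hx h0 := by
    have h := trace_star_mul (toOp x)
    have h2 : ‖toOp x (dl 1)‖ = 0 := by
      have : (‖toOp x (dl 1)‖ ^ 2 : ℝ) = 0 := Complex.ofReal_eq_zero.1 (h.symm.trans h0)
      simpa using this
    exact ext_one hx (zero_mem _) (norm_eq_zero.1 h2)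
  normal := by
    refine ⟨fun n => if n = 0 then dl 1 else 0, fun n => if n = 0 then dl 1 else 0, ?_, ?_, ?_⟩
    · refine summable_of_ne_finset_zero (s := {0}) ?_
      intro n hn
      simp at hn
      simp [hn]
    · refine summable_of_ne_finset_zero (s := {0}) ?_
      intro n hn
      simp at hn
      simp [hn]
    · intro x _
      refine (hasSum_ite_eq (0 : ℕ) (trG G x)).congr_fun' fun n => ?_
      by_cases hn : n = 0
      · subst hn
        simp only [if_true]
        exact inner_dl_left (1 : G) (toOp x (dl 1))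
      · simp only [if_neg hn]
        exact inner_zero_left _

variable (G) in
/-- The group von Neumann algebra `L(G)` with its canonical trace `τ(x) = ⟨δ_1, x δ_1⟩`. -/
noncomputable abbrev LG : TracialVN where
  H := L2 G
  alg := grpAlg G
  τ := trG G
  isTrace := isTrace_grpAlg

/-- An element of `L(G)` as an operator. -/
noncomputable abbrev op (x : (LG G).Elt) : L2 G →L[ℂ] L2 G := toOp x.1

theorem op_mem (x : (LG G).Elt) : op x ∈ (grpAlg G).toStarSubalgebra := x.2

end Group

end Pool.Agent.Helper70K1.VN
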