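import Mathlib

/-!
# Continuous logic for tracial von Neumann algebras: formulas, types, dividing, simplicity
-/

set_option autoImplicit false

namespace Pool.Agent.Helper70K1.CL

/-! ### Bounded operators -/

/-- The bounded operators on the Hilbert space `H` (Mathlib's `H →L[ℂ] H`). -/
def BH (H : Type) [NormedAddCommGroup H] [InnerProductSpace ℂ H] : Type := H →L[ℂ] H

namespace BH

variable {H : Type} [NormedAddCommGroup H] [InnerProductSpace ℂ H]

/-- The vector `x v`. -/
def app (x : BH H) (v : H) : H := ContinuousLinearMap.toLinearMap x v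

/-- The operator `0`. -/
def zero : BH H := (0 : H →L[ℂ] H)

/-- The operator `1`. -/
def one : BH H := ContinuousLinearMap.id ℂ H

/-- The operator `x + y`. -/
def add (x y : BH H) : BH H := Add.add (α := H →L[ℂ] H) x y

/-- The operator `x y`. -/
def mul (x y : BH H) : BH H := ContinuousLinearMap.comp x y

/-- The operator `c x`. -/
noncomputable def smul (c : ℂ) (x : BH H) : BH H := SMul.smul (α := H →L[ℂ] H) c x

/-- The operator norm. -/
noncomputable def norm (x : BH H) : ℝ := ContinuousLinearMap.opNorm x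

variable [CompleteSpace H]

/-- The adjoint operator. -/
noncomputable def adj (x : BH H) : BH H := Star.star (R := H →L[ℂ] H) x

/-- The operator `x` belongs to the von Neumann algebra `M`. -/
def InAlg (M : VonNeumannAlgebra H) (x : BH H) : Prop :=
  Membership.mem (α := H →L[ℂ] H) M x

end BH

/-! ### Tracial von Neumann algebras -/

/-- `τ` is a faithful normal tracial state on the von Neumann algebra `M` (only the values of `τ` on
`M` are relevant). -/
structure IsTrace {H : Type} [NormedAddCommGroup H] [InnerProductSpace ℂ H] [CompleteSpace H]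
    (M : VonNeumannAlgebra H) (τ : BH H → ℂ) : Prop where
  add : ∀ x y : BH H, x.InAlg M → y.InAlg M → τ (x.add y) = τ x + τ y
  smul : ∀ (c : ℂ) (x : BH H), x.InAlg M → τ (x.smul c) = c * τ x
  one : τ BH.one = 1
  comm : ∀ x y : BH H, x.InAlg M → y.InAlg M → τ (x.mul y) = τ (y.mul x)
  nonneg : ∀ x : BH H, x.InAlg M → ∃ r : ℝ, 0 ≤ r ∧ τ (x.adj.mul x) = (r : ℂ)
  faithful : ∀ x : BH H, x.InAlg M → τ (x.adj.mul x) = 0 → x = BH.zero
  /-- normality: `τ` is a σ-weakly continuous functional -/
  normal : ∃ ξ η : ℕ → H, Summable (fun n => ‖ξ n‖ ^ 2) ∧ Summable (fun n => ‖η n‖ ^ 2) ∧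
    ∀ x : BH H, x.InAlg M → HasSum (fun n => inner ℂ (ξ n) (x.app (η n))) (τ x)

/-- A tracial von Neumann algebra `(M, τ)`: a von Neumann algebra `alg` on a complex Hilbert
space `H` (in the sense of Mathlib: a `*`-subalgebra of `B(H)` equal to its bicommutant), with a
faithful normal tracial state `τ`. -/
structure TracialVN where
  /-- the Hilbert space -/
  H : Type
  [instNACG : NormedAddCommGroup H]
  [instIPS : InnerProductSpace ℂ H]
  [instCS : CompleteSpace H]
  /-- the von Neumann algebra -/
  alg : VonNeumannAlgebra H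
  /-- the trace -/
  τ : BH H → ℂ
  isTrace : IsTrace alg τ

attribute [instance] TracialVN.instNACG TracialVN.instIPS TracialVN.instCS

namespace TracialVN

variable (N : TracialVN)

/-- The elements of the algebra `M`. -/
def Elt : Type := {x : BH N.H // x.InAlg N.alg}

variable {N}

theorem zero_mem : BH.InAlg N.alg BH.zero := N.alg.zero_mem'
theorem one_mem : BH.InAlg N.alg BH.one := N.alg.one_mem'
theorem add_mem (x y : N.Elt) : BH.InAlg N.alg (x.1.add y.1) := N.alg.add_mem' x.2 y.2
theorem mul_mem (x y : N.Elt) : BH.InAlg N.alg (x.1.mul y.1) := N.alg.mul_mem' x.2 y.2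
theorem adj_mem (x : N.Elt) : BH.InAlg N.alg x.1.adj := N.alg.star_mem' x.2
theorem smul_mem (c : ℂ) (x : N.Elt) : BH.InAlg N.alg (x.1.smul c) :=
  N.alg.toStarSubalgebra.smul_mem (x := (x.1 : N.H →L[ℂ] N.H)) x.2 c

/-- `0` -/
def zero : N.Elt := ⟨BH.zero, zero_mem⟩
/-- `1` -/
def one : N.Elt := ⟨BH.one, one_mem⟩
/-- `x + y` -/
def add (x y : N.Elt) : N.Elt := ⟨x.1.add y.1, add_mem x y⟩
/-- `x y` -/
def mul (x y : N.Elt) : N.Elt := ⟨x.1.mul y.1, mul_mem x y⟩
/-- `c x` -/
noncomputable def smul (c : ℂ) (x : N.Elt) : N.Elt := ⟨x.1.smul c, smul_mem c x⟩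
/-- `x*` -/
noncomputable def adj (x : N.Elt) : N.Elt := ⟨x.1.adj, adj_mem x⟩

/-- The trace of an element. -/
def tr (x : N.Elt) : ℂ := N.τ x.1

/-- The distance `‖x - y‖₂ = τ((x - y)* (x - y))^{1/2}`. -/
noncomputable def dist2 (x y : N.Elt) : ℝ :=
  √ (tr (mul (adj (add x (smul (-1) y))) (add x (smul (-1) y)))).re

variable (N)

/-- The operator norm ball of radius `r`; the balls of radius `r ≥ 1` are the sorts of the metric
structure. -/
def Ball (r : ℕ+) : Type := {a : N.Elt // a.1.norm ≤ (r : ℕ)}

end TracialVN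

/-! ### Formulas -/

/-- Terms in the variables `V`: `*`-polynomials with coefficients in `ℚ(i)`. -/
inductive Term (V : Type) : Type
  | var (v : V) : Term V
  | zero : Term V
  | one : Term V
  | add (s t : Term V) : Term V
  | mul (s t : Term V) : Term V
  | adj (t : Term V) : Term V
  | smul (a b : ℚ) (t : Term V) : Term V

/-- The value of a term; `smul a b t` stands for `(a + b i) t`. -/
noncomputable def Term.val {N : TracialVN} {V : Type} (e : V → N.Elt) : Term V → N.Elt
  | .var v => e v
  | .zero => TracialVN.zero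
  | .one => TracialVN.one
  | .add s t => TracialVN.add (s.val e) (t.val e)
  | .mul s t => TracialVN.mul (s.val e) (t.val e)
  | .adj t => TracialVN.adj (t.val e)
  | .smul a b t => TracialVN.smul ((a : ℂ) + (b : ℂ) * Complex.I) (t.val e)

/-- Formulas of continuous logic with free variables in `V` and `n` further variables (which are
bound by quantifiers): atomic formulas `Re τ(t)`, `Im τ(t)`, `‖s - t‖₂`; all continuous
connectives; quantifiers `sup` and `inf` over the sorts (the operator norm balls of radius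
`r ≥ 1`). -/
inductive Fml (V : Type) : ℕ → Type
  | reTr {n : ℕ} (t : Term (V ⊕ Fin n)) : Fml V n
  | imTr {n : ℕ} (t : Term (V ⊕ Fin n)) : Fml V n
  | dist {n : ℕ} (s t : Term (V ⊕ Fin n)) : Fml V n
  | conn {n : ℕ} (k : ℕ) (u : C(Fin k → ℝ, ℝ)) (φ : Fin k → Fml V n) : Fml V n
  | sup {n : ℕ} (r : ℕ+) (φ : Fml V (n + 1)) : Fml V n
  | inf {n : ℕ} (r : ℕ+) (φ : Fml V (n + 1)) : Fml V n

/-- The sequence `x` followed by `a`. -/
def snoc {A : Type} {n : ℕ} (x : Fin n → A) (a : A) : Fin (n + 1) → A :=
  Fin.snoc (α := fun _ => A) x a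

/-- The value of a formula in `N`. -/
noncomputable def Fml.eval (N : TracialVN) {V : Type} :
    {n : ℕ} → Fml V n → (V → N.Elt) → (Fin n → N.Elt) → ℝ
  | _, .reTr t, e, x => (TracialVN.tr (t.val (Sum.elim e x))).re
  | _, .imTr t, e, x => (TracialVN.tr (t.val (Sum.elim e x))).im
  | _, .dist s t, e, x => TracialVN.dist2 (s.val (Sum.elim e x)) (t.val (Sum.elim e x))
  | _, .conn _ u φ, e, x => u fun i => (φ i).eval N e x
  | _, .sup r φ, e, x => ⨆ a : N.Ball r, φ.eval N e (snoc x a.1)
  | _, .inf r φ, e, x => ⨅ a : N.Ball r, φ.eval N e (snoc x a.1)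

/-- The value in `N` of the formula `φ` without variables besides `V`, under the assignment
`e`. -/
noncomputable def Fml.value {V : Type} (φ : Fml V 0) {N : TracialVN} (e : V → N.Elt) : ℝ :=
  φ.eval N e Fin.elim0

/-- The value of a sentence. -/
noncomputable def sentenceValue (φ : Fml Empty 0) (N : TracialVN) : ℝ :=
  φ.value (N := N) Empty.elim

/-- The complete theory of `R`: the sentences that take the value `0` in `R`. -/
def Th (R : TracialVN) : Set (Fml Empty 0) := {φ | sentenceValue φ R = 0}

/-- `N` is a model of the theory `T`. -/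
def IsModel (N : TracialVN) (T : Set (Fml Empty 0)) : Prop := ∀ φ ∈ T, sentenceValue φ N = 0

/-! ### Types, dividing, simplicity -/

/-- `j : N → N'` is an elementary embedding: it preserves the values of all formulas. -/
def IsElementary (N N' : TracialVN) (j : N.Elt → N'.Elt) : Prop :=
  ∀ (V : Type) (φ : Fml V 0) (e : V → N.Elt), φ.value (fun v => j (e v)) = φ.value e

/-- A complete `m`-type over the set `B` of elements of `N`, in variables of the sort `r`, given by
the values of the formulas with parameters in `B`: a function which is finitely approximately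
realised in `N`. -/
structure CompleteType (N : TracialVN) (B : Set N.Elt) (m : ℕ) (r : ℕ+) where
  /-- the value of the formula `φ(x, b)` at the type -/
  val : Fml (Fin m ⊕ B) 0 → ℝ
  fin_sat : ∀ (S : Finset (Fml (Fin m ⊕ B) 0)) (ε : ℝ), 0 < ε →
    ∃ a : Fin m → N.Ball r, ∀ φ ∈ S,
      |φ.value (Sum.elim (fun i => (a i).1) (fun b : B => b.1)) - val φ| < ε

/-- The sequence `(c_i)` of `I`-tuples in `N` is indiscernible over the set `A`. -/
def IsIndiscernible (N : TracialVN) (A : Set N.Elt) {I : Type} (c : ℕ → I → N.Elt) : Prop :=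
  ∀ (m : ℕ) (φ : Fml (A ⊕ (Fin m × I)) 0) (s t : Fin m → ℕ), StrictMono s → StrictMono t →
    φ.value (Sum.elim (fun a : A => a.1) (fun q : Fin m × I => c (s q.1) q.2)) =
      φ.value (Sum.elim (fun a : A => a.1) (fun q : Fin m × I => c (t q.1) q.2))

/-- The type `p = p(x, b)` over `B` (enumerated as the tuple `b`) divides over `A`: in an
elementary extension `j : N → N'` there is an `A`-indiscernible sequence `(b_i)` of `B`-tuples
with `b_0 = b`, such that the union of the `p(x, b_i)` is inconsistent, that is, not finitely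
approximately satisfiable in `N'`. -/
def CompleteType.Divides {N : TracialVN} {B : Set N.Elt} {m : ℕ} {r : ℕ+}
    (p : CompleteType N B m r) (A : Set N.Elt) : Prop :=
  ∃ (N' : TracialVN) (j : N.Elt → N'.Elt), IsElementary N N' j ∧
    ∃ b : ℕ → B → N'.Elt, (∀ β : B, b 0 β = j β.1) ∧ IsIndiscernible N' (j '' A) b ∧
      ∃ (S : Finset (ℕ × Fml (Fin m ⊕ B) 0)) (ε : ℝ), 0 < ε ∧
        ∀ a : Fin m → N'.Ball r, ∃ q ∈ S,
          ε ≤ |q.2.value (Sum.elim (fun i => (a i).1) (b q.1)) - p.val q.2|

/-- The set `A` is separable for the metric `‖x - y‖₂` (its density character is at most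
`ℵ₀ = |T|`). -/
def IsSeparableSet (N : TracialVN) (A : Set N.Elt) : Prop :=
  ∃ D : Set N.Elt, D ⊆ A ∧ D.Countable ∧
    ∀ a ∈ A, ∀ ε : ℝ, 0 < ε → ∃ d ∈ D, TracialVN.dist2 a d < ε

/-- The complete theory `T` is simple: every complete type `p` (in finitely many variables) over a
set `B` in a model `N` of `T` does not divide over some separable subset `A` of `B`. -/
def IsSimpleTheory (T : Set (Fml Empty 0)) : Prop :=
  ∀ (N : TracialVN), IsModel N T → ∀ (B : Set N.Elt) (m : ℕ) (r : ℕ+)
    (p : CompleteType N B m r), ∃ A : Set N.Elt, A ⊆ B ∧ IsSeparableSet N A ∧ ¬ p.Divides A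

/-! ### The hyperfinite II₁ factor -/

/-- `(M, τ)` is a factor: the centre is trivial. -/
def IsFactor (N : TracialVN) : Prop :=
  ∀ x : N.Elt, (∀ y : N.Elt, TracialVN.mul x y = TracialVN.mul y x) →
    ∃ c : ℂ, x = TracialVN.smul c TracialVN.one

/-- `(M, τ)` is infinite-dimensional: for every `k` there are `k` linearly independent elements. -/
def IsInfiniteDimensional (N : TracialVN) : Prop :=
  ∀ k : ℕ, ∃ x : Fin k → N.Elt, ∀ c : Fin k → ℂ,
    (∀ v : N.H, ∑ i, c i • (x i).1.app v = 0) → ∀ i, c i = 0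

section

variable {H : Type} [NormedAddCommGroup H] [InnerProductSpace ℂ H] [CompleteSpace H]

/-- `S` is a finite-dimensional unital `*`-subalgebra of `B(H)`: the linear span of finitely many
operators, closed under products and adjoints, containing `1`. -/
structure IsFinDimStarSubalgebra (S : Set (BH H)) : Prop where
  span : ∃ (k : ℕ) (b : Fin k → BH H), ∀ x : BH H,
    x ∈ S ↔ ∃ c : Fin k → ℂ, ∀ v : H, x.app v = ∑ i, c i • (b i).app v
  one : BH.one ∈ S
  mul : ∀ x ∈ S, ∀ y ∈ S, BH.mul x y ∈ S
  adj : ∀ x ∈ S, BH.adj x ∈ S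

/-- The commutant of a set of operators. -/
def comm (S : Set (BH H)) : Set (BH H) := {y | ∀ x ∈ S, BH.mul x y = BH.mul y x}

end

/-- `(M, τ)` is hyperfinite: `M` is the bicommutant of the union of an increasing sequence of
finite-dimensional unital `*`-subalgebras of `B(H)`. -/
def IsHyperfinite (N : TracialVN) : Prop :=
  ∃ A : ℕ → Set (BH N.H), (∀ n, IsFinDimStarSubalgebra (A n)) ∧ (∀ n, A n ⊆ A (n + 1)) ∧
    ∀ x : BH N.H, x.InAlg N.alg ↔ x ∈ comm (comm (⋃ n, A n))

/-- `(M, τ)` is a hyperfinite II₁ factor: an infinite-dimensional hyperfinite factor (with a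
faithful normal tracial state). -/
def IsHyperfiniteII1Factor (N : TracialVN) : Prop :=
  IsFactor N ∧ IsHyperfinite N ∧ IsInfiniteDimensional N

end Pool.Agent.Helper70K1.CL
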