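import Pool.Agent.Helper70K1.VN.Approx

/-!
# The theory of the hyperfinite II₁ factor is not simple
-/

set_option autoImplicit false

open scoped ENNReal

namespace Pool.Agent.Helper70K1.VN

open Pool.Agent.Helper70K1.CL

section

variable {G : Type} [Group G]

theorem norm_lm_le (g : G) : ‖lm g‖ ≤ 1 := by
  show ‖lam g‖ ≤ 1
  refine ContinuousLinearMap.opNorm_le_bound _ zero_le_one fun η => ?_
  rw [one_mul]
  exact le_of_eq ((relab (Equiv.mulLeft g)).norm_map η)

theorem coef_lm_self (g : G) : coef (lm g) g = 1 := by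
  rw [lm_eq_fs, coef_fs, Finsupp.single_eq_same]

theorem coef_lm_ne {g h : G} (hne : g ≠ h) : coef (lm g) h = 0 := by
  rw [lm_eq_fs, coef_fs, Finsupp.single_eq_of_ne]
  exact fun h' => hne h'.symm

theorem lm_injective : Function.Injective (lm : G → (LG G).Elt) := by
  intro g h hgh
  by_contra hne
  have h1 := coef_lm_self g
  rw [hgh, coef_lm_ne (fun h' => hne h'.symm)] at h1
  exact zero_ne_one h1

theorem one_le_norm2_sub {g h : G} (hne : g ≠ h) : 1 ≤ norm2 (LG G) (lm g - lm h) := by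
  rw [norm2_LG]
  have h1 : ‖coef (lm g - lm h) g‖ ≤ ‖op (lm g - lm h) (dl 1)‖ :=
    lp.norm_apply_le_norm (by norm_num) _ _
  rw [coef_sub, coef_lm_self, coef_lm_ne (fun h' => hne h'.symm), sub_zero, norm_one] at h1
  exact h1

end

section

variable {X : Type}

open Classical in
/-- A transposition. -/
noncomputable def sw (x y : X) : FSym X :=
  ⟨Equiv.swap x y, by
    refine Set.Finite.subset (Set.toFinite {x, y}) fun z hz => ?_
    by_contra h
    simp only [Set.mem_insert_iff, Set.mem_singleton_iff, not_or] at h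
    exact hz (Equiv.swap_apply_of_ne_of_ne h.1 h.2)⟩

theorem cj_sw (θ : Equiv.Perm X) (x y : X) : cj θ (sw x y) = sw (θ x) (θ y) := by
  classical
  apply Subtype.ext
  rw [cj_apply]
  exact (Equiv.swap_apply_apply θ x y).symm

theorem sw_inj {x y x' y' : X} (hxy : x ≠ y) (h : sw x y = sw x' y') :
    (x = x' ∧ y = y') ∨ (x = y' ∧ y = x') := by
  classical
  have h1 : Equiv.swap x y x = Equiv.swap x' y' x := by
    have := congrArg (fun σ : FSym X => σ.1 x) h
    unfold sw at this
    simpa using this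
  rw [Equiv.swap_apply_left] at h1
  by_cases hx' : x = x'
  · subst hx'
    rw [Equiv.swap_apply_left] at h1
    exact Or.inl ⟨rfl, h1⟩
  by_cases hy' : x = y'
  · subst hy'
    rw [Equiv.swap_apply_right] at h1
    exact Or.inr ⟨rfl, h1⟩
  · rw [Equiv.swap_apply_of_ne_of_ne hx' hy'] at h1
    exact absurd h1.symm hxy

end

/-- The index set of the big model. -/
abbrev Pt (Ω : Type) : Type := Ω × Option ℕ × Bool

section

variable {Ω : Type}

/-- A permutation acting blockwise. -/
def blk (κ : Ω → Equiv.Perm (Option ℕ)) : Equiv.Perm (Pt Ω) where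
  toFun z := (z.1, κ z.1 z.2.1, z.2.2)
  invFun z := (z.1, (κ z.1).symm z.2.1, z.2.2)
  left_inv z := by simp
  right_inv z := by simp

/-- The transposition `a_α`. -/
noncomputable def ga (α : Ω) : FSym (Pt Ω) := sw (α, none, false) (α, none, true)

/-- The transposition `b_{α,i}`. -/
noncomputable def gb (α : Ω) (i : ℕ) : FSym (Pt Ω) := sw (α, some i, false) (α, some i, true)

theorem cj_blk_ga {κ : Ω → Equiv.Perm (Option ℕ)} {α : Ω} (h : κ α none = none) :
    cj (blk κ) (ga α) = ga α := by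
  unfold ga
  rw [cj_sw]
  show sw (α, κ α none, false) (α, κ α none, true) = _
  rw [h]

theorem cj_blk_ga' {κ : Ω → Equiv.Perm (Option ℕ)} {α : Ω} {i : ℕ} (h : κ α none = some i) :
    cj (blk κ) (ga α) = gb α i := by
  unfold ga gb
  rw [cj_sw]
  show sw (α, κ α none, false) (α, κ α none, true) = _
  rw [h]

theorem cj_blk_gb {κ : Ω → Equiv.Perm (Option ℕ)} {α : Ω} {i k : ℕ}
    (h : κ α (some i) = some k) : cj (blk κ) (gb α i) = gb α k := by
  unfold gb
  rw [cj_sw]
  show sw (α, κ α (some i), false) (α, κ α (some i), true) = _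
  rw [h]

theorem gb_inj {α β : Ω} {i k : ℕ} (h : gb α i = gb β k) : α = β ∧ i = k := by
  rcases sw_inj (by simp) h with ⟨h1, _⟩ | ⟨h1, _⟩
  · simp only [Prod.mk.injEq, Option.some.injEq, and_true] at h1
    exact h1
  · simp at h1

theorem ga_ne_gb (α β : Ω) (i : ℕ) : ga α ≠ gb β i := by
  intro h
  rcases sw_inj (by simp) h with ⟨h1, _⟩ | ⟨h1, _⟩
  · simp at h1
  · simp at h1

open Classical in
/-- The permutation which exchanges `(α, none, ·)` and `(α, some 0, ·)` for `α ∈ F`. -/
noncomputable def gx (F : Finset Ω) : FSym (Pt Ω) :=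
  ⟨blk fun α => if α ∈ F then Equiv.swap none (some 0) else 1, by
    refine Set.Finite.subset ((F.finite_toSet.prod (Set.finite_univ (α := Bool × Bool))).image
      (fun q : Ω × Bool × Bool => ((q.1, if q.2.1 then none else some 0, q.2.2) : Pt Ω))) ?_
    rintro ⟨α, o, c⟩ hz
    have hne : (if α ∈ F then (Equiv.swap none (some 0) : Equiv.Perm (Option ℕ)) else 1) o ≠ o := by
      intro h
      apply hz
      show (α, (if α ∈ F then (Equiv.swap none (some 0) : Equiv.Perm (Option ℕ)) else 1) o, c) =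
        (α, o, c)
      rw [h]
    by_cases hα : α ∈ F
    · rw [if_pos hα] at hne
      have ho : o = none ∨ o = some 0 := by
        by_contra hcon
        rw [not_or] at hcon
        exact hne (Equiv.swap_apply_of_ne_of_ne hcon.1 hcon.2)
      rcases ho with rfl | rfl
      · exact ⟨(α, true, c), by simp [hα], by simp⟩
      · exact ⟨(α, false, c), by simp [hα], by simp⟩
    · rw [if_neg hα] at hne
      exact absurd rfl hne⟩

theorem gx_conj {F : Finset Ω} {α : Ω} (hα : α ∈ F) : gx F * ga α * (gx F)⁻¹ = gb α 0 := by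
  classical
  have h : cj (gx F).1 (ga α) = gb α 0 := by
    unfold gx
    apply cj_blk_ga'
    rw [if_pos hα, Equiv.swap_apply_left]
  rw [← h]
  rfl

/-- The set of the parameters. -/
def PB (Ω : Type) : Set (LG (FSym (Pt Ω))).Elt :=
  Set.range (fun α : Ω => lm (ga α)) ∪ Set.range (fun α : Ω => lm (gb α 0))

/-- The value of a formula at the approximate realisation `x_F`. -/
noncomputable def vx {B : Set (LG (FSym (Pt Ω))).Elt} (φ : Fml (Fin 1 ⊕ B) 0) (F : Finset Ω) :
    ℝ :=
  φ.value (N := LG (FSym (Pt Ω))) (Sum.elim (fun _ => lm (gx F)) (fun b : B => b.1))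

theorem norm_PB {β : (LG (FSym (Pt Ω))).Elt} (hβ : β ∈ PB Ω) : ‖β‖ ≤ 1 := by
  rcases hβ with ⟨α, rfl⟩ | ⟨α, rfl⟩
  · exact norm_lm_le _
  · exact norm_lm_le _

/-- An ultrafilter on the finite subsets of `Ω`. -/
noncomputable def UF (Ω : Type) : Ultrafilter (Finset Ω) :=
  open Classical in Ultrafilter.of Filter.atTop

theorem exists_limit (φ : Fml (Fin 1 ⊕ PB Ω) 0) :
    ∃ L : ℝ, Filter.Tendsto (vx φ) (UF Ω) (nhds L) := by
  obtain ⟨K, hK0, hK⟩ := φ.bdd 1 zero_le_one
  have h : ∀ F, vx φ F ∈ Set.Icc (-K) K := by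
    intro F
    refine abs_le.1 (hK _ _ _ ?_ (fun i => i.elim0))
    intro v
    cases v with
    | inl i => exact norm_lm_le _
    | inr b => exact norm_PB b.2
  obtain ⟨L, _, hL⟩ := (isCompact_Icc (a := -K) (b := K)).ultrafilter_le_nhds
    ((UF Ω).map (vx φ)) (by
      rw [Filter.le_principal_iff]
      show (vx φ) ⁻¹' (Set.Icc (-K) K) ∈ (UF Ω : Filter _)
      exact Filter.univ_mem' h)
  exact ⟨L, hL⟩

/-- The type of a unitary `x` with `x a_α x* = b_α` for all `α`. -/
noncomputable def pType (Ω : Type) : CompleteType (LG (FSym (Pt Ω))) (PB Ω) 1 1 where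
  val φ := (exists_limit φ).choose
  fin_sat S ε hε := by
    have h1 : ∀ᶠ F in (UF Ω : Filter (Finset Ω)), ∀ φ ∈ S,
        |vx φ F - (exists_limit φ).choose| < ε := by
      rw [Filter.eventually_all_finset]
      intro φ _
      have := Metric.tendsto_nhds.1 (exists_limit φ).choose_spec ε hε
      simpa only [Real.dist_eq] using this
    obtain ⟨F, hF⟩ := h1.exists
    refine ⟨fun _ => ⟨lm (gx F), by rw [norm_eq]; simpa using norm_lm_le (gx F)⟩, ?_⟩
    exact hF

/-- The formula `‖x a x* - b‖₂`. -/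
def psi {B : Type} (a b : B) : Fml (Fin 1 ⊕ B) 0 :=
  Fml.dist (Term.mul (Term.mul (Term.var (Sum.inl (Sum.inl 0))) (Term.var (Sum.inl (Sum.inr a))))
    (Term.adj (Term.var (Sum.inl (Sum.inl 0))))) (Term.var (Sum.inl (Sum.inr b)))

theorem eval_psi {N : TracialVN} {B : Type} (a b : B) (x : Fin 1 → N.Elt) (e : B → N.Elt) :
    (psi a b).value (Sum.elim x e) = norm2 N (x 0 * e a * star (x 0) - e b) := by
  rw [← dist2_eq]
  rfl

theorem pType_psi (α : Ω) :
    (pType Ω).val (psi ⟨lm (ga α), Or.inl ⟨α, rfl⟩⟩ ⟨lm (gb α 0), Or.inr ⟨α, rfl⟩⟩) = 0 := by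
  classical
  have h1 := (exists_limit (psi (B := PB Ω) ⟨lm (ga α), Or.inl ⟨α, rfl⟩⟩
    ⟨lm (gb α 0), Or.inr ⟨α, rfl⟩⟩)).choose_spec
  refine tendsto_nhds_unique h1 ?_
  refine tendsto_const_nhds.congr' ?_
  have h2 : ∀ᶠ F in (UF Ω : Filter (Finset Ω)), {α} ⊆ F :=
    (Filter.eventually_ge_atTop ({α} : Finset Ω)).filter_mono (Ultrafilter.of_le _)
  filter_upwards [h2] with F hF
  have hα : α ∈ F := hF (Finset.mem_singleton_self α)
  unfold vx
  rw [eval_psi]
  show 0 = norm2 (LG (FSym (Pt Ω))) (lm (gx F) * lm (ga α) * star (lm (gx F)) - lm (gb α 0))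
  rw [lm_adj, lm_mul, lm_mul, gx_conj hα, sub_self, norm2_zero]

/-- Two injective sequences of the same finite length are related by a permutation. -/
theorem exists_perm_nat {m : ℕ} {s t : Fin m → ℕ} (hs : StrictMono s) (ht : StrictMono t) :
    ∃ π : Equiv.Perm ℕ, ∀ k, π (s k) = t k := by
  have h := Equiv.Perm.isMultiplyPretransitive ℕ m
  obtain ⟨g, hg⟩ := h.exists_smul_eq ⟨s, hs.injective⟩ ⟨t, ht.injective⟩
  refine ⟨g, fun k => ?_⟩
  have := congrArg (fun f : Fin m ↪ ℕ => f k) hg
  exact this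

/-- The type `p` divides over every separable subset of the parameters. -/
theorem pType_divides [Uncountable Ω] (A : Set (LG (FSym (Pt Ω))).Elt) (hA : A ⊆ PB Ω)
    (hsep : IsSeparableSet (LG (FSym (Pt Ω))) A) : (pType Ω).Divides A := by
  classical
  -- choose `α` such that `b_α` is not in `A`
  obtain ⟨α, hα⟩ : ∃ α : Ω, lm (gb α 0) ∉ A := by
    obtain ⟨D, hDA, hDc, hD⟩ := hsep
    by_contra hcon
    push Not at hcon
    have hall : ∀ α : Ω, lm (gb α 0) ∈ D := by
      intro α
      obtain ⟨d, hd, hdist⟩ := hD _ (hcon α) 1 one_pos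
      rw [dist2_eq] at hdist
      obtain ⟨g, rfl⟩ : ∃ g, d = lm g := by
        rcases hA (hDA hd) with ⟨β, rfl⟩ | ⟨β, rfl⟩
        · exact ⟨_, rfl⟩
        · exact ⟨_, rfl⟩
      by_cases hg : gb α 0 = g
      · rw [hg]; exact hd
      · exact absurd hdist (not_lt.2 (one_le_norm2_sub hg))
    have hinj : Function.Injective fun α : Ω => (⟨lm (gb α 0), hall α⟩ : D) := by
      intro α β h
      exact (gb_inj (lm_injective (congrArg Subtype.val h))).1
    have : Countable D := hDc.to_subtype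
    have : Countable Ω := hinj.countable
    exact not_countable (α := Ω) this
  refine ⟨LG (FSym (Pt Ω)), id, fun V φ e => rfl,
    fun i β => if β.1 = lm (gb α 0) then lm (gb α i) else β.1, ?_, ?_, ?_⟩
  · intro β
    show (if β.1 = lm (gb α 0) then lm (gb α 0) else β.1) = β.1
    split_ifs with h
    · exact h.symm
    · rfl
  · intro m φ s t hs ht
    obtain ⟨π, hπ⟩ := exists_perm_nat hs ht
    let κ : Ω → Equiv.Perm (Option ℕ) := fun β => if β = α then Equiv.optionCongr π else 1
    let I := isoLG (cj (blk κ))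
    have hκa : ∀ β, κ β none = none := by
      intro β
      show (if β = α then Equiv.optionCongr π else 1 : Equiv.Perm (Option ℕ)) none = none
      split_ifs
      · rfl
      · rfl
    have hκb : ∀ i, κ α (some i) = some (π i) := by
      intro i
      show (if α = α then Equiv.optionCongr π else 1 : Equiv.Perm (Option ℕ)) (some i) = _
      rw [if_pos rfl]
      rfl
    have hκb' : ∀ β, β ≠ α → κ β (some 0) = some 0 := by
      intro β hβ
      show (if β = α then Equiv.optionCongr π else 1 : Equiv.Perm (Option ℕ)) (some 0) = _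
      rw [if_neg hβ]
      rfl
    have hIa : ∀ β, I.Φ (lm (ga β)) = lm (ga β) := by
      intro β
      rw [isoLG_lm, cj_blk_ga (hκa β)]
    have hIb : ∀ i, I.Φ (lm (gb α i)) = lm (gb α (π i)) := by
      intro i
      rw [isoLG_lm, cj_blk_gb (hκb i)]
    have hIb' : ∀ β, β ≠ α → I.Φ (lm (gb β 0)) = lm (gb β 0) := by
      intro β hβ
      rw [isoLG_lm, cj_blk_gb (hκb' β hβ)]
    have hfix : ∀ β ∈ PB Ω, β ≠ lm (gb α 0) → I.Φ β = β := by
      rintro β (⟨γ, rfl⟩ | ⟨γ, rfl⟩) hβ
      · exact hIa γ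
      · refine hIb' γ ?_
        rintro rfl
        exact hβ rfl
    have key := I.eval φ (Sum.elim (fun a : (id '' A : Set _) => a.1)
      (fun q : Fin m × PB Ω => if q.2.1 = lm (gb α 0) then lm (gb α (s q.1)) else q.2.1))
      Fin.elim0
    refine Eq.trans key.symm ?_
    show Fml.eval (LG (FSym (Pt Ω))) φ _ _ = Fml.eval (LG (FSym (Pt Ω))) φ _ Fin.elim0
    congr 1
    · funext v
      rcases v with a | q
      · show I.Φ a.1 = a.1
        obtain ⟨a', ha', ha⟩ := a.2
        have h2 : a.1 ∈ A := by rw [← ha]; exact ha'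
        exact hfix _ (hA h2) fun h => hα (h ▸ h2)
      · show I.Φ (if q.2.1 = lm (gb α 0) then lm (gb α (s q.1)) else q.2.1) =
          if q.2.1 = lm (gb α 0) then lm (gb α (t q.1)) else q.2.1
        split_ifs with h
        · rw [hIb, hπ]
        · exact hfix _ q.2.2 h
    · funext i
      exact i.elim0
  · let ψ : Fml (Fin 1 ⊕ PB Ω) 0 := psi ⟨lm (ga α), Or.inl ⟨α, rfl⟩⟩ ⟨lm (gb α 0), Or.inr ⟨α, rfl⟩⟩
    refine ⟨{(0, ψ), (1, ψ)}, 1 / 2, by norm_num, fun a => ?_⟩
    by_contra hcon
    push Not at hcon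
    have h0 := hcon (0, ψ) (by simp)
    have h1 := hcon (1, ψ) (by simp)
    have hga : ¬ ((lm (ga α) : (LG (FSym (Pt Ω))).Elt) = lm (gb α 0)) :=
      fun h => ga_ne_gb α α 0 (lm_injective h)
    rw [pType_psi, sub_zero, eval_psi] at h0 h1
    simp only [if_neg hga, if_true] at h0 h1
    rw [abs_of_nonneg (norm2_nonneg _)] at h0 h1
    have h2 : (1 : ℝ) ≤ norm2 (LG (FSym (Pt Ω))) (lm (gb α 0) - lm (gb α 1)) :=
      one_le_norm2_sub fun h => by simpa using (gb_inj h).2
    have h3 : norm2 (LG (FSym (Pt Ω))) (lm (gb α 0) - lm (gb α 1)) ≤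
        norm2 (LG (FSym (Pt Ω))) ((a 0).1 * lm (ga α) * star (a 0).1 - lm (gb α 0)) +
        norm2 (LG (FSym (Pt Ω))) ((a 0).1 * lm (ga α) * star (a 0).1 - lm (gb α 1)) := by
      rw [norm2_sub_comm ((a 0).1 * lm (ga α) * star (a 0).1) (lm (gb α 0))]
      refine le_trans (le_of_eq ?_) (norm2_add _ _)
      congr 1
      abel
    linarith

end

/-- The theory of `L(S_∞)` is not simple. -/
theorem not_simple : ¬ IsSimpleTheory (Th (LG (FSym ℕ))) := by
  intro h
  let Ω : Type := Set ℕ
  have hunc : Uncountable Ω := by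
    rw [← not_countable_iff]
    intro hc
    obtain ⟨f, hf⟩ := exists_surjective_nat (Set ℕ)
    exact Function.cantor_surjective f hf
  have : Infinite (Pt Ω) := by infer_instance
  have hmodel : IsModel (LG (FSym (Pt Ω))) (Th (LG (FSym ℕ))) := by
    intro φ hφ
    rw [← value_eq (Infinite.natEmbedding (Pt Ω))]
    exact hφ
  obtain ⟨A, hA, hsep, hdiv⟩ := h (LG (FSym (Pt Ω))) hmodel (PB Ω) 1 1 (pType Ω)
  exact hdiv (pType_divides A hA hsep)

end Pool.Agent.Helper70K1.VN
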